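import Pool.Agent.SMx.Fin

/-! MP_72ffec_pr: from the soft-max to the maximum. -/

open MeasureTheory ProbabilityTheory Real
open scoped BigOperators ENNReal

namespace SM3

open SMx

-- BEGIN psb
/-- projections are linear: the difference -/
theorem perp_sub {n : ℕ} {Ω : Type*} [MeasurableSpace Ω] (P : Measure Ω) [IsProbabilityMeasure P]
    (X : Ω → Fin n → ℝ) (hX : CG P X) (F G F' G' : Ω → ℝ) (hF : MemLp F 2 P) (hF' : MemLp F' 2 P)
    (h : IsPerp P X F G) (h' : IsPerp P X F' G') :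
    IsPerp P X (fun ω => F ω - F' ω) (fun ω => G ω - G' ω) := by
  obtain ⟨⟨c, hc⟩, ho⟩ := h
  obtain ⟨⟨c', hc'⟩, ho'⟩ := h'
  have hXi : ∀ i, MemLp (fun ω => X ω i) 2 P := fun i => memLp_gr P X hX (Gr.coord i)
  have hG : ∀ (c : Fin n → ℝ) (F G : Ω → ℝ), MemLp F 2 P →
      (∀ᵐ ω ∂P, G ω = F ω - ∑ i, c i * X ω i) → MemLp G 2 P := by
    intro c F G hF hc
    have hY : MemLp (fun ω => ∑ i, c i * X ω i) 2 P :=
      memLp_finsetSum _ fun i _ => (hXi i).const_mul (c i)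
    exact (memLp_congr_ae hc).2 (hF.sub hY)
  refine ⟨⟨fun i => c i - c' i, ?_⟩, fun j => ?_⟩
  · filter_upwards [hc, hc'] with ω h1 h2
    have h3 : ∑ i, (c i - c' i) * X ω i = ∑ i, c i * X ω i - ∑ i, c' i * X ω i := by
      rw [← Finset.sum_sub_distrib]
      exact Finset.sum_congr rfl fun i _ => sub_mul _ _ _
    rw [h3, h1, h2]
    ring
  · have e : (fun ω => (G ω - G' ω) * X ω j) = fun ω => G ω * X ω j - G' ω * X ω j := by
      funext ω
      ring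
    have i1 : Integrable (fun ω => G ω * X ω j) P := (hG c F G hF hc).integrable_mul (hXi j)
    have i2 : Integrable (fun ω => G' ω * X ω j) P :=
      (hG c' F' G' hF' hc').integrable_mul (hXi j)
    show ∫ ω, (G ω - G' ω) * X ω j ∂P = 0
    rw [e, integral_sub i1 i2, ho j, ho' j, sub_zero]
-- END psb

-- BEGIN mxe
/-- the projection of a square integrable function onto the complement of a one-vector span exists:
for the maximum of three coordinates.  (General fact: finite dimensional subspace of `L²`; or from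
the soft-max: explicit coefficients as in `SMx.exists_perp` are not available, so take the
orthogonal projection in `Lp ℝ 2 P` onto `Submodule.span` of the finitely many `X_i`.) -/
theorem exists_perp_of {n : ℕ} {Ω : Type*} [MeasurableSpace Ω] (P : Measure Ω)
    [IsProbabilityMeasure P] (X : Ω → Fin n → ℝ) (hX : CG P X) (F : Ω → ℝ) (hF : MemLp F 2 P) :
    ∃ G, IsPerp P X F G := by
  have hXi : ∀ i, MemLp (fun ω => X ω i) 2 P := fun i => memLp_gr P X hX (Gr.coord i)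
  have ip : ∀ (f g : Ω → ℝ) (hf : MemLp f 2 P) (hg : MemLp g 2 P),
      inner ℝ (hf.toLp f) (hg.toLp g) = ∫ ω, g ω * f ω ∂P := by
    intro f g hf hg
    rw [MeasureTheory.L2.inner_def]
    apply integral_congr_ae
    filter_upwards [hf.coeFn_toLp, hg.coeFn_toLp] with ω h1 h2
    rw [h1, h2]
    simp [mul_comm]
  have hfin : FiniteDimensional ℝ
      (Submodule.span ℝ (Set.range fun i : Fin n => (hXi i).toLp (fun ω => X ω i))) :=
    FiniteDimensional.span_of_finite ℝ (Set.finite_range _)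
  obtain ⟨y, hy, z, hz, hv⟩ := (Submodule.span ℝ
    (Set.range fun i : Fin n => (hXi i).toLp (fun ω => X ω i))).exists_add_mem_mem_orthogonal
      (hF.toLp F)
  obtain ⟨c, hc⟩ := (Submodule.mem_span_range_iff_exists_fun ℝ).1 hy
  refine ⟨fun ω => F ω - ∑ i, c i * X ω i, ⟨c, Filter.Eventually.of_forall fun ω => rfl⟩,
    fun j => ?_⟩
  have h0 : inner ℝ ((hXi j).toLp (fun ω => X ω j)) z = 0 :=
    (Submodule.mem_orthogonal _ z).1 hz _ (Submodule.subset_span ⟨j, rfl⟩)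
  have h1 : inner ℝ ((hXi j).toLp (fun ω => X ω j)) (hF.toLp F) =
      ∑ i, c i * ∫ ω, X ω i * X ω j ∂P := by
    rw [hv, inner_add_right, h0, add_zero, ← hc, inner_sum]
    apply Finset.sum_congr rfl
    intro i _
    rw [inner_smul_right, ip]
  rw [ip] at h1
  have i1 : Integrable (fun ω => F ω * X ω j) P := hF.integrable_mul (hXi j)
  have i2 : ∀ i : Fin n, Integrable (fun ω => X ω i * X ω j) P := fun i =>
    (hXi i).integrable_mul (hXi j)
  have i3 : ∀ i : Fin n, Integrable (fun ω => c i * (X ω i * X ω j)) P := fun i =>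
    (i2 i).const_mul (c i)
  have e : (fun ω => (F ω - ∑ i, c i * X ω i) * X ω j) =
      fun ω => F ω * X ω j - ∑ i, c i * (X ω i * X ω j) := by
    funext ω
    rw [sub_mul, Finset.sum_mul]
    congr 1
    exact Finset.sum_congr rfl fun i _ => mul_assoc _ _ _
  show ∫ ω, (F ω - ∑ i, c i * X ω i) * X ω j ∂P = 0
  rw [e, integral_sub i1 (integrable_finsetSum _ fun i _ => i3 i), h1,
    integral_finsetSum _ fun i _ => i3 i]
  rw [Finset.sum_congr rfl fun i _ => integral_const_mul (c i) (fun ω => X ω i * X ω j), sub_self]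
-- END mxe

-- BEGIN smb
/-- `max ≤ f_β ≤ max + log 3 / β` -/
theorem sm_bounds (β : ℝ) (hβ : 0 < β) (x : Fin 3 → ℝ) :
    max (x 0) (max (x 1) (x 2)) ≤ sm β x ∧ sm β x ≤ max (x 0) (max (x 1) (x 2)) + log 3 / β := by
  set M := max (x 0) (max (x 1) (x 2)) with hM
  have h0 : x 0 ≤ M := le_max_left _ _
  have h1 : x 1 ≤ M := (le_max_left _ _).trans (le_max_right _ _)
  have h2 : x 2 ≤ M := (le_max_right _ _).trans (le_max_right _ _)
  have hS : ∑ k, exp (β * x k) = exp (β * x 0) + exp (β * x 1) + exp (β * x 2) := by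
    rw [Fin.sum_univ_three]
  have e0 : exp (β * x 0) ≤ exp (β * M) := exp_le_exp.2 (mul_le_mul_of_nonneg_left h0 hβ.le)
  have e1 : exp (β * x 1) ≤ exp (β * M) := exp_le_exp.2 (mul_le_mul_of_nonneg_left h1 hβ.le)
  have e2 : exp (β * x 2) ≤ exp (β * M) := exp_le_exp.2 (mul_le_mul_of_nonneg_left h2 hβ.le)
  have p0 := exp_pos (β * x 0)
  have p1 := exp_pos (β * x 1)
  have p2 := exp_pos (β * x 2)
  have hSpos : 0 < ∑ k, exp (β * x k) := by rw [hS]; positivity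
  have hlow : exp (β * M) ≤ ∑ k, exp (β * x k) := by
    rw [hS]
    rcases max_choice (x 0) (max (x 1) (x 2)) with h | h
    · rw [← hM] at h; rw [h]; linarith
    · rcases max_choice (x 1) (x 2) with h' | h'
      · rw [← hM, h'] at h; rw [h]; linarith
      · rw [← hM, h'] at h; rw [h]; linarith
  have hup : ∑ k, exp (β * x k) ≤ 3 * exp (β * M) := by rw [hS]; linarith
  have l1 : β * M ≤ log (∑ k, exp (β * x k)) := by
    rw [← log_exp (β * M)]
    exact log_le_log (exp_pos _) hlow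
  have l2 : log (∑ k, exp (β * x k)) ≤ log 3 + β * M := by
    have h := log_le_log hSpos hup
    rwa [log_mul (by norm_num) (exp_pos _).ne', log_exp] at h
  unfold sm
  constructor
  · rw [one_div, ← div_eq_inv_mul, le_div_iff₀ hβ]
    linarith
  · rw [one_div, ← div_eq_inv_mul, div_le_iff₀ hβ, add_mul, div_mul_cancel₀ _ hβ.ne']
    linarith

theorem gr_max : Gr (fun x : Fin 3 → ℝ => max (x 0) (max (x 1) (x 2))) := by
  refine ⟨by fun_prop, 1, 1, zero_le_one, zero_le_one, fun x => ?_⟩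
  rw [one_mul, one_mul, Fin.sum_univ_three]
  have a0 := abs_nonneg (x 0)
  have a1 := abs_nonneg (x 1)
  have a2 := abs_nonneg (x 2)
  have h : |max (x 0) (max (x 1) (x 2))| ≤ |x 0| + |x 1| + |x 2| := by
    rcases max_choice (x 0) (max (x 1) (x 2)) with h | h
    · rw [h]; linarith
    · rw [h]
      rcases max_choice (x 1) (x 2) with h' | h'
      · rw [h']; linarith
      · rw [h']; linarith
  exact h.trans ((le_add_of_nonneg_right zero_le_one).trans (add_one_le_exp _))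
-- END smb

-- BEGIN cmp
private theorem cmp_mem {n : ℕ} {Ω : Type*} [MeasurableSpace Ω] (P : Measure Ω)
    [IsProbabilityMeasure P] (X : Ω → Fin n → ℝ) (hX : CG P X) (F G : Ω → ℝ) (hF : MemLp F 2 P)
    (h : IsPerp P X F G) : MemLp G 2 P := by
  obtain ⟨⟨c, hc⟩, -⟩ := h
  have hXi : ∀ i, MemLp (fun ω => X ω i) 2 P := fun i => memLp_gr P X hX (Gr.coord i)
  have hY : MemLp (fun ω => ∑ i, c i * X ω i) 2 P :=
    memLp_finsetSum _ fun i _ => (hXi i).const_mul (c i)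
  exact (memLp_congr_ae hc).2 (hF.sub hY)

private theorem cmp_sq {x y u v b ε : ℝ} (hε : 0 < ε) (h : x = y + u) (hu : u ^ 2 ≤ 2 * v ^ 2 + 2 * b ^ 2) :
    x ^ 2 ≤ (1 + ε) * y ^ 2 + (1 + 1 / ε) * (2 * v ^ 2 + 2 * b ^ 2) := by
  have h1 : x ^ 2 ≤ (1 + ε) * y ^ 2 + (1 + 1 / ε) * u ^ 2 := by
    have h2 : 0 ≤ (ε * y - u) ^ 2 / ε := by positivity
    have h3 : (ε * y - u) ^ 2 / ε = ε * y ^ 2 - 2 * (y * u) + 1 / ε * u ^ 2 := by
      field_simp
      ring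
    rw [h3] at h2
    rw [h]
    nlinarith
  have h4 : (1 + 1 / ε) * u ^ 2 ≤ (1 + 1 / ε) * (2 * v ^ 2 + 2 * b ^ 2) :=
    mul_le_mul_of_nonneg_left hu (by positivity)
  linarith

private theorem cmp_int {Ω : Type*} [MeasurableSpace Ω] (P : Measure Ω) [IsProbabilityMeasure P]
    (x y v : Ω → ℝ) (b c ε : ℝ) (hε : 0 < ε) (hx : Integrable (fun ω => x ω ^ 2) P)
    (hy : Integrable (fun ω => y ω ^ 2) P) (hv : Integrable (fun ω => v ω ^ 2) P)
    (h : ∀ ω, x ω ^ 2 ≤ (1 + ε) * y ω ^ 2 + (1 + 1 / ε) * (2 * v ω ^ 2 + 2 * b ^ 2))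
    (hc : ∫ ω, v ω ^ 2 ∂P ≤ c ^ 2) :
    ∫ ω, x ω ^ 2 ∂P ≤ (1 + ε) * ∫ ω, y ω ^ 2 ∂P + (1 + 1 / ε) * (2 * c ^ 2 + 2 * b ^ 2) := by
  have j1 : Integrable (fun ω => (1 + ε) * y ω ^ 2) P := hy.const_mul _
  have j2 : Integrable (fun ω => 2 * v ω ^ 2 + 2 * b ^ 2) P :=
    (hv.const_mul 2).add (integrable_const _)
  have j3 : Integrable (fun ω => (1 + 1 / ε) * (2 * v ω ^ 2 + 2 * b ^ 2)) P := j2.const_mul _
  have h1 : ∫ ω, x ω ^ 2 ∂P ≤
      ∫ ω, ((1 + ε) * y ω ^ 2 + (1 + 1 / ε) * (2 * v ω ^ 2 + 2 * b ^ 2)) ∂P :=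
    integral_mono hx (j1.add j3) h
  have h2 : ∫ ω, ((1 + ε) * y ω ^ 2 + (1 + 1 / ε) * (2 * v ω ^ 2 + 2 * b ^ 2)) ∂P =
      (1 + ε) * ∫ ω, y ω ^ 2 ∂P + (1 + 1 / ε) * (2 * ∫ ω, v ω ^ 2 ∂P + 2 * b ^ 2) := by
    rw [integral_add j1 j3, integral_const_mul, integral_const_mul,
      integral_add (hv.const_mul 2) (integrable_const _), integral_const_mul, integral_const]
    simp
  rw [h2] at h1
  have h3 : (1 + 1 / ε) * (2 * ∫ ω, v ω ^ 2 ∂P + 2 * b ^ 2) ≤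
      (1 + 1 / ε) * (2 * c ^ 2 + 2 * b ^ 2) :=
    mul_le_mul_of_nonneg_left (by linarith) (by positivity)
  linarith

/-- one step of the comparison: `G` projection of `F`, `H` projection of `F₁`, `|F - F₁| ≤ c`:
`∫ G² ≤ (1 + ε) ∫ (H + b)² + (1 + 1/ε) (2 c² + 2 b²)` and
`∫ (H + b)² ≤ (1 + ε) ∫ G² + (1 + 1/ε) (2 c² + 2 b²)` (from `perp_sub`, `SMx.perp_le` with `b = 0`
and `(x + y)² ≤ (1 + ε) x² + (1 + 1/ε) y²`) -/
theorem comp_step {n : ℕ} {Ω : Type*} [MeasurableSpace Ω] (P : Measure Ω) [IsProbabilityMeasure P]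
    (X : Ω → Fin n → ℝ) (hX : CG P X) (F F1 G H : Ω → ℝ) (hF : MemLp F 2 P) (hF1 : MemLp F1 2 P)
    (hG : IsPerp P X F G) (hH : IsPerp P X F1 H) (b c ε : ℝ) (hε : 0 < ε) (hc : 0 ≤ c)
    (h : ∀ ω, |F ω - F1 ω| ≤ c) :
    (∫ ω, G ω ^ 2 ∂P ≤ (1 + ε) * ∫ ω, (H ω + b) ^ 2 ∂P + (1 + 1 / ε) * (2 * c ^ 2 + 2 * b ^ 2)) ∧
    (∫ ω, (H ω + b) ^ 2 ∂P ≤ (1 + ε) * ∫ ω, G ω ^ 2 ∂P + (1 + 1 / ε) * (2 * c ^ 2 + 2 * b ^ 2)) := by
  have mG := cmp_mem P X hX F G hF hG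
  have mH := cmp_mem P X hX F1 H hF1 hH
  have mHb : MemLp (fun ω => H ω + b) 2 P := mH.add (memLp_const b)
  have mD : MemLp (fun ω => G ω - H ω) 2 P := mG.sub mH
  have mF : MemLp (fun ω => F ω - F1 ω) 2 P := hF.sub hF1
  have hD : ∫ ω, (G ω - H ω) ^ 2 ∂P ≤ c ^ 2 := by
    have h1 := perp_le P X hX (fun ω => F ω - F1 ω) (fun ω => G ω - H ω) mF 0
      (perp_sub P X hX F G F1 H hF hF1 hG hH)
    simp only [add_zero] at h1
    refine h1.trans ?_
    have h2 : ∫ ω, (F ω - F1 ω) ^ 2 ∂P ≤ ∫ _, c ^ 2 ∂P :=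
      integral_mono mF.integrable_sq (integrable_const _) fun ω => by
        have h3 := h ω
        show (F ω - F1 ω) ^ 2 ≤ c ^ 2
        rw [← sq_abs]
        exact pow_le_pow_left₀ (abs_nonneg _) h3 2
    refine h2.trans (le_of_eq ?_)
    simp
  refine ⟨cmp_int P G (fun ω => H ω + b) (fun ω => G ω - H ω) b c ε hε mG.integrable_sq
    mHb.integrable_sq mD.integrable_sq (fun ω => ?_) hD,
    cmp_int P (fun ω => H ω + b) G (fun ω => G ω - H ω) b c ε hε mHb.integrable_sq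
    mG.integrable_sq mD.integrable_sq (fun ω => ?_) hD⟩
  · refine cmp_sq (u := G ω - H ω - b) hε (by ring) ?_
    nlinarith [sq_nonneg (G ω - H ω + b)]
  · refine cmp_sq (u := -(G ω - H ω) + b) hε (by ring) ?_
    nlinarith [sq_nonneg (G ω - H ω + b)]
-- END cmp

-- BEGIN lim
/-- the limit: if for every `β > 0` there are `u v` with `M ≤ (1 + 1/β) u + (1 + β) C / β²`,
`u ≤ v`, `v ≤ (1 + 1/β) N + (1 + β) C / β²`, then `M ≤ N` -/
theorem lim_step (M N C : ℝ) (h : ∀ β : ℝ, 0 < β → ∃ u v : ℝ, M ≤ (1 + 1 / β) * u + (1 + β) * (C / β ^ 2) ∧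
    u ≤ v ∧ v ≤ (1 + 1 / β) * N + (1 + β) * (C / β ^ 2)) : M ≤ N := by
  have hcont : Continuous fun t : ℝ =>
      (1 + t) * ((1 + t) * N + (C * t ^ 2 + C * t)) + (C * t ^ 2 + C * t) := by fun_prop
  have h1 : Filter.Tendsto (fun t : ℝ =>
      (1 + t) * ((1 + t) * N + (C * t ^ 2 + C * t)) + (C * t ^ 2 + C * t)) (nhds 0) (nhds N) := by
    have h2 := hcont.tendsto 0
    have h3 : (1 + (0 : ℝ)) * ((1 + 0) * N + (C * 0 ^ 2 + C * 0)) + (C * 0 ^ 2 + C * 0) = N := by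
      ring
    rwa [h3] at h2
  have h4 := h1.comp tendsto_inv_atTop_zero
  refine ge_of_tendsto h4 ?_
  filter_upwards [Filter.eventually_gt_atTop 0] with β hβ
  obtain ⟨u, v, a1, a2, a3⟩ := h β hβ
  have e1 : (1 + β) * (C / β ^ 2) = C * β⁻¹ ^ 2 + C * β⁻¹ := by
    field_simp
  show M ≤ (1 + β⁻¹) * ((1 + β⁻¹) * N + (C * β⁻¹ ^ 2 + C * β⁻¹)) + (C * β⁻¹ ^ 2 + C * β⁻¹)
  rw [e1, one_div] at a1 a3
  have hp : 0 ≤ 1 + β⁻¹ := by positivity
  have h5 := mul_le_mul_of_nonneg_left (a2.trans a3) hp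
  linarith
-- END lim

-- BEGIN mxs
/-- from the soft-max to the maximum, three coordinates (glue: `SMx.exists_perp`, `comp_step` with
`ε = 1/β`, `c = log 3 / β`, `b = 1/β`, `C = 2 (log 3)² + 2`, `lim_step`) -/
theorem max_of_soft {Ω : Type*} [MeasurableSpace Ω] (P : Measure Ω) [IsProbabilityMeasure P]
    {Ω' : Type*} [MeasurableSpace Ω'] (P' : Measure Ω') [IsProbabilityMeasure P']
    (X : Ω → Fin 3 → ℝ) (S : Ω' → Fin 3 → ℝ) (hX : CG P X) (hS : CG P' S)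
    (hsoft : ∀ β : ℝ, 0 < β → ∀ (G : Ω → ℝ) (G' : Ω' → ℝ), IsPerp P X (fun ω => sm β (X ω)) G →
      IsPerp P' S (fun ω => sm β (S ω)) G' →
      ∫ ω, (G ω + 1 / β) ^ 2 ∂P ≤ ∫ ω, (G' ω + 1 / β) ^ 2 ∂P')
    (G : Ω → ℝ) (G' : Ω' → ℝ)
    (hG : IsPerp P X (fun ω => max (X ω 0) (max (X ω 1) (X ω 2))) G)
    (hG' : IsPerp P' S (fun ω => max (S ω 0) (max (S ω 1) (S ω 2))) G') :
    ∫ ω, G ω ^ 2 ∂P ≤ ∫ ω, G' ω ^ 2 ∂P' := by
  have gs : ∀ β : ℝ, Gr (fun x : Fin 3 → ℝ => sm β x) := by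
    intro β
    have e : (fun x : Fin 3 → ℝ => sm β x) = fun x => 1 / β * Lg β x := rfl
    rw [e]
    exact (Gr.Lg β).const_mul _
  refine lim_step _ _ (2 * log 3 ^ 2 + 2) fun β hβ => ?_
  obtain ⟨H, hH⟩ := exists_perp (by norm_num : 0 < 3) β hβ.ne' P X hX
  obtain ⟨H', hH'⟩ := exists_perp (by norm_num : 0 < 3) β hβ.ne' P' S hS
  have hc : 0 ≤ log 3 / β := div_nonneg (Real.log_nonneg (by norm_num)) hβ.le
  have hb : ∀ x : Fin 3 → ℝ, |max (x 0) (max (x 1) (x 2)) - sm β x| ≤ log 3 / β := by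
    intro x
    obtain ⟨h1, h2⟩ := sm_bounds β hβ x
    rw [abs_le]
    constructor <;> linarith
  have hcal : (1 + 1 / (1 / β)) * (2 * (log 3 / β) ^ 2 + 2 * (1 / β) ^ 2) =
      (1 + β) * ((2 * log 3 ^ 2 + 2) / β ^ 2) := by
    field_simp
  have s1 := (comp_step P X hX (fun ω => max (X ω 0) (max (X ω 1) (X ω 2))) (fun ω => sm β (X ω))
    G H (memLp_gr P X hX gr_max) (memLp_gr P X hX (gs β)) hG hH (1 / β) (log 3 / β) (1 / β)
    (by positivity) hc (fun ω => hb (X ω))).1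
  have s2 := (comp_step P' S hS (fun ω => max (S ω 0) (max (S ω 1) (S ω 2))) (fun ω => sm β (S ω))
    G' H' (memLp_gr P' S hS gr_max) (memLp_gr P' S hS (gs β)) hG' hH' (1 / β) (log 3 / β) (1 / β)
    (by positivity) hc (fun ω => hb (S ω))).2
  rw [hcal] at s1 s2
  exact ⟨_, _, s1, hsoft β hβ H H' hH hH', s2⟩
-- END mxs

end SM3
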