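import Pool.Agent.SM3.Defs

/-! MP_72ffec_pr, three coordinates: basic lemmas. -/

open MeasureTheory ProbabilityTheory Real
open scoped BigOperators ENNReal

namespace SM3

open SMx

-- BEGIN egc
private theorem egc_cg {n : ℕ} {ι : Type} [Fintype ι] (A : Fin n → ι → ℝ) :
    CG (γ ι) (lin A) := by
  refine ⟨?_, fun i => mom1 A i⟩
  have hi : iIndepFun (fun (k : ι) (z : ι → ℝ) => z k) (γ ι) :=
    iIndepFun_pi (μ := fun _ : ι => gaussianReal 0 1) (X := fun _ : ι => (id : ℝ → ℝ))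
      fun _ => aemeasurable_id
  have hg : ∀ k : ι, HasGaussianLaw (fun z : ι → ℝ => z k) (γ ι) := by
    intro k
    refine ⟨?_⟩
    have e : (γ ι).map (fun z : ι → ℝ => z k) = gaussianReal 0 1 :=
      (measurePreserving_eval (fun _ : ι => gaussianReal 0 1) k).map_eq
    rw [e]
    infer_instance
  have h1 : HasGaussianLaw (fun (z : ι → ℝ) => fun k => z k) (γ ι) := iIndepFun.hasGaussianLaw hg hi
  let L : (ι → ℝ) →L[ℝ] (Fin n → ℝ) := ContinuousLinearMap.pi fun i =>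
    ∑ k, A i k • (ContinuousLinearMap.proj k : (ι → ℝ) →L[ℝ] ℝ)
  have h2 := h1.map_fun L
  have e2 : (fun z : ι → ℝ => L fun k => z k) = lin A := by
    funext z i
    simp [L, lin]
  rwa [e2] at h2

/-- the expectation depends on the covariance only.  Proof: `P := γ ι`, `X := lin A` is a centered
Gaussian vector (linear image of the product of standard Gaussians, means zero by `SMx.mom1`) with
`∫ X i * X j = cv A i j` (`SMx.mom2`); take `a` from `SMx.root` and apply `SMx.transfer` with it to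
`A` and to `B`. -/
theorem EG_congr {n : ℕ} {ι κ : Type} [Fintype ι] [Fintype κ] (A : Fin n → ι → ℝ)
    (B : Fin n → κ → ℝ) (h : ∀ i j, cv A i j = cv B i j) {g : (Fin n → ℝ) → ℝ} (hg : Gr g) :
    EG A g = EG B g := by
  obtain ⟨a, ha⟩ := root (γ ι) (lin A) (egc_cg A)
  have hA : ∀ i j, ∫ ω, lin A ω i * lin A ω j ∂(γ ι) = cv A i j := fun i j => mom2 A i j
  have hB : ∀ i j, ∫ ω, lin B ω i * lin B ω j ∂(γ κ) = cv B i j := fun i j => mom2 B i j
  have h1 : EG A g = EG a g := transfer (γ ι) (lin A) (egc_cg A) a ha hg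
  have h2 : EG B g = EG a g := by
    refine transfer (γ κ) (lin B) (egc_cg B) a (fun i j => ?_) hg
    rw [ha i j, hA i j, hB i j, h i j]
  rw [h1, h2]
-- END egc

-- BEGIN odd
private theorem odd_pdf_neg (x : ℝ) : gaussianPDFReal 0 1 (-x) = gaussianPDFReal 0 1 x := by
  simp [gaussianPDFReal]

private theorem odd_pdf_mono {u v : ℝ} (h : v ^ 2 ≤ u ^ 2) :
    gaussianPDFReal 0 1 u ≤ gaussianPDFReal 0 1 v := by
  simp only [gaussianPDFReal]
  refine mul_le_mul_of_nonneg_left ?_ (by positivity)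
  refine Real.exp_le_exp.2 ?_
  rw [div_le_div_iff_of_pos_right (by norm_num)]
  simp only [sub_zero]
  linarith

private theorem odd_main (N : ℝ → ℝ) (hodd : ∀ x, N (-x) = -N x) (hpos : ∀ x, 0 ≤ x → 0 ≤ N x)
    {a τ : ℝ} (ha : 0 ≤ a) (hτ : 0 < τ) : 0 ≤ ∫ z, N (a + τ * z) ∂(gaussianReal 0 1) := by
  rw [integral_gaussianReal_eq_integral_smul one_ne_zero]
  obtain ⟨c, hc⟩ : ∃ c : ℝ, c = a / τ := ⟨_, rfl⟩
  have hc0 : 0 ≤ c := by rw [hc]; positivity
  have hca : τ * c = a := by rw [hc]; field_simp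
  by_cases hint : Integrable (fun x => gaussianPDFReal 0 1 x • N (a + τ * x))
  swap
  · rw [integral_undef hint]
  have e1 : ∫ x, gaussianPDFReal 0 1 x • N (a + τ * x) =
      ∫ x, gaussianPDFReal 0 1 (x - c) • N (τ * x) := by
    rw [← integral_sub_right_eq_self (fun x => gaussianPDFReal 0 1 x • N (a + τ * x)) c]
    refine integral_congr_ae (Filter.Eventually.of_forall fun x => ?_)
    show gaussianPDFReal 0 1 (x - c) • N (a + τ * (x - c)) = _
    rw [show a + τ * (x - c) = τ * x by rw [mul_sub, hca]; ring]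
  have i1 : Integrable (fun x => gaussianPDFReal 0 1 (x - c) • N (τ * x)) := by
    refine (hint.comp_sub_right c).congr (Filter.Eventually.of_forall fun x => ?_)
    show gaussianPDFReal 0 1 (x - c) • N (a + τ * (x - c)) = _
    rw [show a + τ * (x - c) = τ * x by rw [mul_sub, hca]; ring]
  have hneg : ∀ x : ℝ, gaussianPDFReal 0 1 (-x - c) • N (τ * -x) =
      -(gaussianPDFReal 0 1 (x + c) • N (τ * x)) := by
    intro x
    rw [show -x - c = -(x + c) by ring, odd_pdf_neg, show τ * -x = -(τ * x) by ring, hodd,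
      smul_neg]
  have i2 : Integrable (fun x => -(gaussianPDFReal 0 1 (x + c) • N (τ * x))) := by
    refine i1.comp_neg.congr (Filter.Eventually.of_forall fun x => ?_)
    exact hneg x
  have e2 : ∫ x, gaussianPDFReal 0 1 x • N (a + τ * x) =
      ∫ x, -(gaussianPDFReal 0 1 (x + c) • N (τ * x)) := by
    rw [e1, ← integral_neg_eq_self (fun x => gaussianPDFReal 0 1 (x - c) • N (τ * x)) volume]
    exact integral_congr_ae (Filter.Eventually.of_forall fun x => hneg x)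
  have e3 : 2 * ∫ x, gaussianPDFReal 0 1 x • N (a + τ * x) =
      ∫ x, (gaussianPDFReal 0 1 (x - c) • N (τ * x) +
        -(gaussianPDFReal 0 1 (x + c) • N (τ * x))) := by
    rw [integral_add i1 i2, ← e1, ← e2]
    ring
  have e4 : 0 ≤ ∫ x, (gaussianPDFReal 0 1 (x - c) • N (τ * x) +
        -(gaussianPDFReal 0 1 (x + c) • N (τ * x))) := by
    refine integral_nonneg fun x => ?_
    simp only [smul_eq_mul, Pi.zero_apply]
    rcases le_total 0 x with hx | hx
    · have h1 : gaussianPDFReal 0 1 (x + c) ≤ gaussianPDFReal 0 1 (x - c) :=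
        odd_pdf_mono (by nlinarith [mul_nonneg hx hc0])
      have h2 : 0 ≤ N (τ * x) := hpos _ (by positivity)
      have h3 := mul_le_mul_of_nonneg_right h1 h2
      linarith
    · have h1 : gaussianPDFReal 0 1 (x - c) ≤ gaussianPDFReal 0 1 (x + c) :=
        odd_pdf_mono (by nlinarith [mul_nonneg (neg_nonneg.2 hx) hc0])
      have h2 : N (τ * x) ≤ 0 := by
        have h4 : 0 ≤ N (-(τ * x)) := hpos _ (by
          have := mul_nonneg hτ.le (neg_nonneg.2 hx)
          linarith)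
        rw [hodd] at h4
        linarith
      have h3 := mul_le_mul_of_nonpos_right h1 h2
      linarith
  linarith

private theorem odd_refl (f : ℝ → ℝ) :
    ∫ z, f (-z) ∂(gaussianReal 0 1) = ∫ z, f z ∂(gaussianReal 0 1) := by
  rw [integral_gaussianReal_eq_integral_smul one_ne_zero,
    integral_gaussianReal_eq_integral_smul one_ne_zero,
    ← integral_neg_eq_self (fun x => gaussianPDFReal 0 1 x • f x) volume]
  refine integral_congr_ae (Filter.Eventually.of_forall fun x => ?_)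
  show gaussianPDFReal 0 1 x • f (-x) = gaussianPDFReal 0 1 (-x) • f (-x)
  rw [odd_pdf_neg]

private theorem odd_nn (N : ℝ → ℝ) (hodd : ∀ x, N (-x) = -N x) (hpos : ∀ x, 0 ≤ x → 0 ≤ N x)
    {a : ℝ} (τ : ℝ) (ha : 0 ≤ a) : 0 ≤ ∫ z, N (a + τ * z) ∂(gaussianReal 0 1) := by
  rcases lt_trichotomy τ 0 with h | h | h
  · have h1 := odd_main N hodd hpos ha (neg_pos.2 h)
    have h2 := odd_refl (fun z => N (a + τ * z))
    have h3 : ∀ z : ℝ, a + τ * -z = a + -τ * z := fun z => by ring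
    simp only [h3] at h2
    rw [← h2]
    exact h1
  · rw [h]
    simpa using hpos a ha
  · exact odd_main N hodd hpos ha h

/-- reflection lemma: `N` odd and nonnegative on `[0, ∞)`, `t` and `a` of the same sign.  Proof for
`a ≥ 0`, `τ > 0` (the other cases by `z → -z`, `N` odd, and `τ = 0` directly): with the density
`φ = gaussianPDFReal 0 1`, `J = ∫ N (a + τ z) φ z = ∫ N (τ z) φ (z - c)`, `c = a / τ` (translation),
and `J = - ∫ N (τ z) φ (z + c)` (reflection), so `2 J = ∫ N (τ z) (φ (z - c) - φ (z + c)) ≥ 0`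
pointwise, if the integrand is integrable; if it is not, `J = 0`. -/
theorem odd_shift (N : ℝ → ℝ) (hodd : ∀ x, N (-x) = -N x) (hpos : ∀ x, 0 ≤ x → 0 ≤ N x)
    (t a τ : ℝ) (h : (0 ≤ a ∧ 0 ≤ t) ∨ (a ≤ 0 ∧ t ≤ 0)) :
    0 ≤ t * ∫ z, N (a + τ * z) ∂(gaussianReal 0 1) := by
  rcases h with ⟨ha, ht⟩ | ⟨ha, ht⟩
  · exact mul_nonneg ht (odd_nn N hodd hpos τ ha)
  · have h1 := odd_nn N hodd hpos (a := -a) (-τ) (by linarith)
    have h2 : ∀ z : ℝ, N (-a + -τ * z) = -N (a + τ * z) := fun z => by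
      rw [show -a + -τ * z = -(a + τ * z) by ring, hodd]
    simp only [h2] at h1
    rw [integral_neg] at h1
    exact mul_nonneg_of_nonpos_of_nonpos ht (by linarith)
-- END odd

-- BEGIN kkp
theorem kk_neg (w : ℝ) : kk (-w) = kk w := by
  unfold kk
  rw [neg_div, cosh_neg]

theorem EE_neg (w : ℝ) : EE (-w) = EE w := by
  unfold EE
  rw [neg_div, cosh_neg]

theorem ll_neg (u : ℝ) : ll (-u) = ll u := by
  unfold ll
  rw [cosh_neg]

theorem kk_pos (w : ℝ) : 0 < kk w := by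
  unfold kk
  have h := cosh_pos (w / 2)
  positivity

theorem kk_le (w : ℝ) : kk w ≤ 1 := by
  unfold kk
  have h := one_le_cosh (w / 2)
  rw [div_le_one (by positivity)]
  nlinarith

theorem EE_pos (w : ℝ) : 0 < EE w := by
  unfold EE
  have h := one_le_cosh (w / 2)
  exact log_pos (by linarith)

theorem ll_nonneg (u : ℝ) : 0 ≤ ll u := by
  unfold ll
  have h := one_le_cosh u
  exact log_nonneg (by linarith)

theorem ll_le (u : ℝ) : ll u ≤ 1 + |u| := by
  unfold ll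
  have h1 := cosh_pos u
  rw [log_le_iff_le_exp (by positivity), exp_add]
  have h2 : cosh u ≤ exp |u| := by
    rw [← cosh_abs, ← cosh_add_sinh]
    have h3 : 0 ≤ sinh |u| := sinh_nonneg_iff.2 (abs_nonneg u)
    linarith
  have h4 : (2 : ℝ) ≤ exp 1 := by
    have h5 := add_one_le_exp (1 : ℝ)
    linarith
  exact mul_le_mul h4 h2 h1.le (exp_pos 1).le

theorem kk_anti {x y : ℝ} (h : |x| ≤ |y|) : kk y ≤ kk x := by
  unfold kk
  have h1 : cosh (x / 2) ≤ cosh (y / 2) := by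
    rw [cosh_le_cosh, abs_div, abs_div]
    exact div_le_div_of_nonneg_right h (abs_nonneg 2)
  have h2 := cosh_pos (x / 2)
  have h3 : cosh (x / 2) ^ 2 ≤ cosh (y / 2) ^ 2 := pow_le_pow_left₀ h2.le h1 2
  exact one_div_le_one_div_of_le (by positivity) (by linarith)
-- END kkp

-- BEGIN kea
theorem kea_aux {c d : ℝ} (hc : 1 ≤ c) (hd : c ≤ d) : log (2 * d) * c ^ 2 ≤ log (2 * c) * d ^ 2 := by
  have hc0 : 0 < c := by linarith
  have hd0 : 0 < d := by linarith
  have h1 : log (2 * d) = log (2 * c) + log (d / c) := by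
    rw [← Real.log_mul (by positivity) (by positivity)]
    congr 1
    field_simp
  have h2 : 2 * log (d / c) ≤ (d / c) ^ 2 - 1 := by
    have h3 := Real.log_le_sub_one_of_pos (show (0 : ℝ) < (d / c) ^ 2 by positivity)
    rw [Real.log_pow] at h3
    push_cast at h3
    exact h3
  have h4 : 1 / 2 ≤ log (2 * c) := by
    have h5 : log 2 ≤ log (2 * c) := Real.log_le_log (by norm_num) (by linarith)
    have h6 := Real.log_two_gt_d9
    linarith
  have h7 : 2 * (log (d / c) * c ^ 2) ≤ d ^ 2 - c ^ 2 := by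
    have h8 : 2 * log (d / c) * c ^ 2 ≤ ((d / c) ^ 2 - 1) * c ^ 2 :=
      mul_le_mul_of_nonneg_right h2 (by positivity)
    have h9 : ((d / c) ^ 2 - 1) * c ^ 2 = d ^ 2 - c ^ 2 := by
      field_simp
    rw [h9] at h8
    linarith
  have h10 : 0 ≤ d ^ 2 - c ^ 2 := by nlinarith
  have h11 : 1 / 2 * (d ^ 2 - c ^ 2) ≤ log (2 * c) * (d ^ 2 - c ^ 2) :=
    mul_le_mul_of_nonneg_right h4 h10
  rw [h1]
  nlinarith

/-- `k E` is even and decreasing in `|w|`: with `c = cosh (x/2) ≤ d = cosh (y/2)` (`c ≥ 1`),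
`log (2 d) c² ≤ log (2 c) d²` because `log (d/c) ≤ ((d/c)² - 1)/2` and `log (2 c) ≥ log 2 ≥ 1/2`. -/
theorem kE_anti {x y : ℝ} (h : |x| ≤ |y|) : kk y * EE y ≤ kk x * EE x := by
  have hc : 1 ≤ cosh (x / 2) := Real.one_le_cosh _
  have hd : cosh (x / 2) ≤ cosh (y / 2) := by
    rw [Real.cosh_le_cosh, abs_div, abs_div]
    exact div_le_div_of_nonneg_right h (abs_nonneg _)
  have h1 := kea_aux hc hd
  have hx0 : 0 < cosh (x / 2) := Real.cosh_pos _
  have hy0 : 0 < cosh (y / 2) := Real.cosh_pos _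
  unfold kk EE
  rw [div_mul_eq_mul_div, div_mul_eq_mul_div, one_mul, one_mul,
    div_le_div_iff₀ (by positivity) (by positivity)]
  nlinarith

theorem kE_le (x : ℝ) : kk x * EE x ≤ 1 := by
  have hc : 1 ≤ cosh (x / 2) := Real.one_le_cosh _
  have hx0 : 0 < cosh (x / 2) := Real.cosh_pos _
  have h1 : log (2 * cosh (x / 2)) ≤ 2 * cosh (x / 2) - 1 :=
    Real.log_le_sub_one_of_pos (by positivity)
  unfold kk EE
  rw [div_mul_eq_mul_div, one_mul, div_le_one (by positivity)]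
  nlinarith
-- END kea

-- BEGIN mmp
theorem MM_neg (lam l y : ℝ) : MM lam l (-y) = -MM lam l y := by
  have e1 : -y - l = -(y + l) := by ring
  have e2 : -y + l = -(y - l) := by ring
  unfold MM
  rw [e1, e2, kk_neg, kk_neg, EE_neg, EE_neg]
  ring

theorem MM_nonneg (lam l y : ℝ) (hlam : 0 ≤ lam) (hl : 0 ≤ l) (hy : 0 ≤ y) : 0 ≤ MM lam l y := by
  have h : |y - l| ≤ |y + l| := by
    rw [abs_of_nonneg (add_nonneg hy hl)]
    exact abs_le.2 ⟨by linarith, by linarith⟩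
  have h1 := kE_anti h
  have h2 := kk_anti h
  have h3 := kk_pos (y - l)
  have h4 := kk_pos (y + l)
  have h5 : 0 ≤ l / 2 * (kk (y - l) - kk (y + l)) :=
    mul_nonneg (by linarith) (by linarith)
  have h6 : 0 ≤ lam / 2 * y * (kk (y - l) + kk (y + l)) :=
    mul_nonneg (mul_nonneg (by linarith) hy) (by linarith)
  unfold MM
  linarith
-- END mmp

-- BEGIN ptw
private theorem ptw_Sm (x0 s u : ℝ) : Sm 1 ![x0, s + u, s - u] =
    exp ((x0 + s + ll u) / 2) * (2 * cosh ((x0 - s - ll u) / 2)) := by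
  have hll : exp (ll u) = 2 * cosh u := by
    unfold ll
    rw [exp_log (by have := cosh_pos u; positivity)]
  have h1 : Sm 1 ![x0, s + u, s - u] = exp x0 + exp (s + u) + exp (s - u) := by
    unfold Sm
    rw [Fin.sum_univ_three]
    simp
  have h2 : exp (s + u) + exp (s - u) = exp (s + ll u) := by
    rw [exp_add s (ll u), hll, cosh_eq, sub_eq_add_neg s u, exp_add, exp_add]
    ring
  rw [h1, add_assoc, h2, cosh_eq]
  have h3 : exp ((x0 + s + ll u) / 2) * (2 * ((exp ((x0 - s - ll u) / 2) +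
      exp (-((x0 - s - ll u) / 2))) / 2)) =
      exp ((x0 + s + ll u) / 2 + (x0 - s - ll u) / 2) +
      exp ((x0 + s + ll u) / 2 + -((x0 - s - ll u) / 2)) := by
    rw [exp_add ((x0 + s + ll u) / 2) ((x0 - s - ll u) / 2),
      exp_add ((x0 + s + ll u) / 2) (-((x0 - s - ll u) / 2))]
    ring
  rw [h3]
  congr 2
  · ring
  · ring

/-- pointwise formulas: `e^{s+u} + e^{s-u} = e^m`, `m = s + ll u`; with `w = x₀ - m` the sum of the
exponentials is `e^{(x₀+m)/2} 2 cosh (w/2)`. -/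
theorem pt_Lg (x0 s u : ℝ) : Lg 1 ![x0, s + u, s - u] = (x0 + s + ll u) / 2 + EE (x0 - s - ll u) := by
  have h1 := ptw_Sm x0 s u
  unfold Lg EE
  rw [h1, log_mul (exp_pos _).ne' (by positivity), log_exp]

theorem pt_q (x0 s u : ℝ) : pw 1 ![x0, s + u, s - u] 0 *
    (pw 1 ![x0, s + u, s - u] 1 - pw 1 ![x0, s + u, s - u] 2) = tanh u * kk (x0 - s - ll u) := by
  have h1 := ptw_Sm x0 s u
  have hc : 0 < cosh u := cosh_pos u
  have hc2 : 0 < cosh ((x0 - s - ll u) / 2) := cosh_pos _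
  have hll : exp (ll u) = 2 * cosh u := by
    unfold ll
    rw [exp_log (by positivity)]
  have h2 : exp ((x0 + s + ll u) / 2) ^ 2 = exp x0 * exp s * (2 * cosh u) := by
    rw [← exp_nat_mul, ← hll, ← exp_add, ← exp_add]
    congr 1
    push_cast
    ring
  have h3 : exp (s + u) - exp (s - u) = exp s * (2 * sinh u) := by
    rw [sinh_eq, sub_eq_add_neg s u, exp_add, exp_add]
    ring
  unfold pw
  rw [h1]
  show exp (1 * x0) / _ * (exp (1 * (s + u)) / _ - exp (1 * (s - u)) / _) = _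
  rw [one_mul, one_mul, one_mul, ← sub_div, h3, div_mul_div_comm, ← sq, mul_pow, h2, tanh_eq_sinh_div_cosh]
  unfold kk
  have hx := exp_pos x0
  have hs := exp_pos s
  field_simp
  ring
-- END ptw

-- BEGIN lnb
/-- the vector represented by `Bm` -/
theorem lin_Bm (κ σ τ lam ω : ℝ) (z : Fin 3 → ℝ) : lin (Bm κ σ τ lam ω) z =
    ![κ * (σ * z 0) + ((1 + lam) * (τ * z 1) + ω * z 2) / 2,
      ((lam - 1) * (τ * z 1) + ω * z 2) / 2 + σ * z 0,
      ((lam - 1) * (τ * z 1) + ω * z 2) / 2 - σ * z 0] := by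
  funext i
  fin_cases i <;> simp [lin, Bm, Fin.sum_univ_three] <;> ring

theorem cv_Bm (κ σ τ lam ω : ℝ) :
    cv (Bm κ σ τ lam ω) 0 0 = κ ^ 2 * σ ^ 2 + (1 + lam) ^ 2 * τ ^ 2 / 4 + ω ^ 2 / 4 ∧
    cv (Bm κ σ τ lam ω) 1 1 = σ ^ 2 + (lam - 1) ^ 2 * τ ^ 2 / 4 + ω ^ 2 / 4 ∧
    cv (Bm κ σ τ lam ω) 2 2 = σ ^ 2 + (lam - 1) ^ 2 * τ ^ 2 / 4 + ω ^ 2 / 4 ∧
    cv (Bm κ σ τ lam ω) 0 1 = κ * σ ^ 2 + (lam ^ 2 - 1) * τ ^ 2 / 4 + ω ^ 2 / 4 ∧
    cv (Bm κ σ τ lam ω) 1 0 = κ * σ ^ 2 + (lam ^ 2 - 1) * τ ^ 2 / 4 + ω ^ 2 / 4 ∧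
    cv (Bm κ σ τ lam ω) 0 2 = -(κ * σ ^ 2) + (lam ^ 2 - 1) * τ ^ 2 / 4 + ω ^ 2 / 4 ∧
    cv (Bm κ σ τ lam ω) 2 0 = -(κ * σ ^ 2) + (lam ^ 2 - 1) * τ ^ 2 / 4 + ω ^ 2 / 4 ∧
    cv (Bm κ σ τ lam ω) 1 2 = -σ ^ 2 + (lam - 1) ^ 2 * τ ^ 2 / 4 + ω ^ 2 / 4 ∧
    cv (Bm κ σ τ lam ω) 2 1 = -σ ^ 2 + (lam - 1) ^ 2 * τ ^ 2 / 4 + ω ^ 2 / 4 := by
  refine ⟨?_, ?_, ?_, ?_, ?_, ?_, ?_, ?_, ?_⟩ <;> simp [cv, Bm, Fin.sum_univ_three] <;> ring
-- END lnb

-- BEGIN grw
private theorem grw_of {f g : (Fin 3 → ℝ) → ℝ} (hf : Continuous f) (hg : Gr g)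
    (h : ∀ x, |f x| ≤ g x) : Gr f := by
  obtain ⟨-, C, K, hC, hK, h1⟩ := hg
  exact ⟨hf, C, K, hC, hK, fun x => (h x).trans ((le_abs_self _).trans (h1 x))⟩

private theorem grw_ckk : Continuous kk := by
  unfold kk
  refine continuous_const.div ?_ fun w => ?_
  · exact continuous_const.mul ((Real.continuous_cosh.comp (continuous_id.div_const 2)).pow 2)
  · have := Real.cosh_pos (w / 2)
    positivity

private theorem grw_cll : Continuous ll := by
  unfold ll
  exact (continuous_const.mul Real.continuous_cosh).log fun u =>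
    (mul_pos two_pos (Real.cosh_pos u)).ne'

private theorem grw_cth : Continuous tanh := by
  have h : tanh = fun x : ℝ => sinh x / cosh x := by
    funext x
    exact Real.tanh_eq_sinh_div_cosh x
  rw [h]
  exact Real.continuous_sinh.div Real.continuous_cosh fun x => (Real.cosh_pos x).ne'

private theorem grw_kk {w : (Fin 3 → ℝ) → ℝ} (hw : Gr w) : Gr (fun x => kk (w x)) :=
  grw_of (grw_ckk.comp hw.1) (Gr.const 1) fun x => by
    rw [abs_of_pos (kk_pos _)]
    exact kk_le _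

private theorem grw_th {w : (Fin 3 → ℝ) → ℝ} (hw : Gr w) : Gr (fun x => tanh (w x)) :=
  grw_of (grw_cth.comp hw.1) (Gr.const 1) fun _ => (Real.abs_tanh_lt_one _).le

private theorem grw_ll {w : (Fin 3 → ℝ) → ℝ} (hw : Gr w) : Gr (fun x => ll (w x)) :=
  grw_of (grw_cll.comp hw.1) ((Gr.const 1).add hw.abs) fun x => by
    rw [abs_of_nonneg (ll_nonneg _)]
    exact ll_le _

private theorem grw_EE {w : (Fin 3 → ℝ) → ℝ} (hw : Gr w) : Gr (fun x => EE (w x)) := by
  have h := grw_ll (hw.const_mul (1 / 2))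
  have e : (fun x => EE (w x)) = fun x => ll (1 / 2 * w x) := by
    funext x
    unfold EE ll
    congr 3
    ring
  rw [e]
  exact h

private theorem grw_u (σ : ℝ) (i : Fin 3) : Gr (fun z : Fin 3 → ℝ => σ * z i) :=
  (Gr.coord i).const_mul σ

private theorem grw_y (κ σ τ : ℝ) : Gr (fun z : Fin 3 → ℝ => κ * (σ * z 0) + τ * z 1) :=
  ((grw_u σ 0).const_mul κ).add (grw_u τ 1)

private theorem grw_l (σ : ℝ) : Gr (fun z : Fin 3 → ℝ => ll (σ * z 0)) := grw_ll (grw_u σ 0)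

/-- growth: all four are continuous and bounded by a polynomial in `|z 0|, |z 1|`
(`|tanh| ≤ 1`, `0 < kk ≤ 1`, `0 < kk * EE ≤ 1`, `0 ≤ ll u ≤ 1 + |u|`). -/
theorem gr_Qf (κ σ τ : ℝ) : Gr (Qf κ σ τ) := by
  unfold Qf
  exact (grw_th (grw_u σ 0)).mul (grw_kk ((grw_y κ σ τ).sub (grw_l σ)))

theorem gr_Tf (κ σ τ lam : ℝ) : Gr (Tf κ σ τ lam) := by
  unfold Tf
  have h1 : Gr (fun z : Fin 3 → ℝ => (κ * (σ * z 0) + ll (σ * z 0) + lam * (τ * z 1)) / 2) := by
    have h := ((((grw_u σ 0).const_mul κ).add (grw_l σ)).add ((grw_u τ 1).const_mul lam)).const_mul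
      (1 / 2)
    have e : (fun z : Fin 3 → ℝ => (κ * (σ * z 0) + ll (σ * z 0) + lam * (τ * z 1)) / 2) =
        fun z : Fin 3 → ℝ => 1 / 2 * (κ * (σ * z 0) + ll (σ * z 0) + lam * (τ * z 1)) := by
      funext z
      ring
    rw [e]
    exact h
  exact (gr_Qf κ σ τ).mul (h1.add (grw_EE ((grw_y κ σ τ).sub (grw_l σ))))

theorem gr_Ta (κ σ τ lam : ℝ) : Gr (Ta κ σ τ lam) := by
  unfold Ta MM
  have hy := grw_y κ σ τ
  have hl := grw_l σ
  have hm := hy.sub hl
  have hp := hy.add hl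
  have h2 : Gr (fun z : Fin 3 → ℝ => ll (σ * z 0) / 2) := by
    have e : (fun z : Fin 3 → ℝ => ll (σ * z 0) / 2) = fun z : Fin 3 → ℝ => 1 / 2 * ll (σ * z 0) := by
      funext z
      ring
    rw [e]
    exact hl.const_mul (1 / 2)
  exact (grw_th (grw_u σ 0)).mul
    (((((grw_kk hm).mul (grw_EE hm)).sub ((grw_kk hp).mul (grw_EE hp))).add
      (h2.mul ((grw_kk hm).sub (grw_kk hp)))).add
      ((hy.const_mul (lam / 2)).mul ((grw_kk hm).add (grw_kk hp))))

theorem gr_Tb (κ σ τ : ℝ) : Gr (Tb κ σ τ) := by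
  unfold Tb
  have hy := grw_y κ σ τ
  have hl := grw_l σ
  exact ((grw_u σ 0).mul (grw_th (grw_u σ 0))).mul ((grw_kk (hy.sub hl)).add (grw_kk (hy.add hl)))
-- END grw

-- BEGIN smt
/-- symmetrisation: `T(z) + T(-z)` -/
theorem sym_T (κ σ τ lam : ℝ) (z : Fin 3 → ℝ) : Tf κ σ τ lam z + Tf κ σ τ lam (-z) =
    Ta κ σ τ lam z + (1 - lam) / 2 * κ * Tb κ σ τ z := by
  have h0 : σ * (-z) 0 = -(σ * z 0) := by rw [Pi.neg_apply, mul_neg]
  have h1 : τ * (-z) 1 = -(τ * z 1) := by rw [Pi.neg_apply, mul_neg]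
  have h2 : κ * -(σ * z 0) + -(τ * z 1) - ll (σ * z 0) =
      -(κ * (σ * z 0) + τ * z 1 + ll (σ * z 0)) := by ring
  unfold Tf Qf Ta Tb MM
  rw [h0, h1, ll_neg, h2, kk_neg, EE_neg, tanh_neg]
  ring
-- END smt

-- BEGIN neg
/-- `γ` is symmetric -/
theorem int_neg {F : (Fin 3 → ℝ) → ℝ} (hF : Gr F) : ∫ z, F (-z) ∂(γ (Fin 3)) = ∫ z, F z ∂(γ (Fin 3)) := by
  have h1 : MeasurePreserving (fun x : ℝ => -x) (gaussianReal 0 1) (gaussianReal 0 1) := by
    refine ⟨measurable_neg, ?_⟩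
    have := gaussianReal_map_neg (μ := 0) (v := 1)
    rw [neg_zero] at this
    exact this
  have h2 : MeasurePreserving (fun (z : Fin 3 → ℝ) => fun i => -z i) (γ (Fin 3)) (γ (Fin 3)) :=
    measurePreserving_pi (fun _ : Fin 3 => gaussianReal 0 1) (fun _ : Fin 3 => gaussianReal 0 1)
      (fun _ => h1)
  have h3 : ∫ z, F z ∂((γ (Fin 3)).map fun (z : Fin 3 → ℝ) => fun i => -z i) =
      ∫ z, F (-z) ∂(γ (Fin 3)) :=
    integral_map h2.measurable.aemeasurable hF.1.aestronglyMeasurable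
  rw [← h3, h2.map_eq]
-- END neg

-- BEGIN fub
private theorem fub_mp {ι : Type} [Fintype ι] [DecidableEq ι] (k : ι) :
    MeasurePreserving (fun p : (ι → ℝ) × ℝ => Function.update p.1 k p.2)
      ((γ ι).prod (gaussianReal 0 1)) (γ ι) := by
  refine ⟨measurable_update', ?_⟩
  symm
  refine Measure.pi_eq fun s hs => ?_
  rw [Measure.map_apply measurable_update' (MeasurableSet.univ_pi hs)]
  have e1 : (fun p : (ι → ℝ) × ℝ => Function.update p.1 k p.2) ⁻¹' (Set.univ.pi s) =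
      (Set.univ.pi (Function.update s k Set.univ)) ×ˢ (s k) := by
    ext p
    simp only [Set.mem_preimage, Set.mem_pi, Set.mem_univ, true_implies, Set.mem_prod]
    constructor
    · intro h
      refine ⟨fun i => ?_, ?_⟩
      · by_cases hi : i = k
        · subst hi
          simp
        · have := h i
          rw [Function.update_of_ne hi] at this
          rw [Function.update_of_ne hi]
          exact this
      · have := h k
        rw [Function.update_self] at this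
        exact this
    · rintro ⟨h1, h2⟩ i
      by_cases hi : i = k
      · subst hi
        rw [Function.update_self]
        exact h2
      · have := h1 i
        rw [Function.update_of_ne hi] at this
        rw [Function.update_of_ne hi]
        exact this
  rw [e1, Measure.prod_prod, γ, Measure.pi_pi,
    ← Finset.mul_prod_erase Finset.univ (fun i => (gaussianReal 0 1) (Function.update s k Set.univ i))
      (Finset.mem_univ k),
    ← Finset.mul_prod_erase Finset.univ (fun i => (gaussianReal 0 1) (s i)) (Finset.mem_univ k)]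
  rw [Function.update_self, measure_univ, one_mul, mul_comm]
  congr 1
  refine Finset.prod_congr rfl fun i hi => ?_
  rw [Function.update_of_ne (Finset.ne_of_mem_erase hi)]

private theorem fub_aux {ι : Type} [Fintype ι] [DecidableEq ι] (F : (ι → ℝ) → ℝ) (hF : Integrable F (γ ι)) (k : ι) :
    ∫ z, F z ∂(γ ι) = ∫ z, ∫ t, F (Function.update z k t) ∂(gaussianReal 0 1) ∂(γ ι) := by
  have hmp := fub_mp (ι := ι) k
  have h1 : Integrable (fun p : (ι → ℝ) × ℝ => F (Function.update p.1 k p.2))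
      ((γ ι).prod (gaussianReal 0 1)) := hmp.integrable_comp_of_integrable hF
  rw [← integral_prod _ h1]
  conv_lhs => rw [← hmp.map_eq]
  rw [integral_map hmp.measurable.aemeasurable]
  rw [hmp.map_eq]
  exact hF.aestronglyMeasurable

/-- integration of one coordinate first (copy of the private `stein_mp`, `stein_fub` of
`SMx/A.lean`) -/
theorem fub {F : (Fin 3 → ℝ) → ℝ} (hF : Gr F) (k : Fin 3) :
    ∫ z, F z ∂(γ (Fin 3)) = ∫ z, ∫ t, F (Function.update z k t) ∂(gaussianReal 0 1) ∂(γ (Fin 3)) :=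
  fub_aux F hF.int k
-- END fub

-- BEGIN stc
/-- Stein for a coordinate of `A z`: `E x_l h(x) = ∑_j cv A l j E ∂_j h(x)` (from `SMx.steinlin`,
as in the beginning of `SMx.stein_sm`) -/
theorem stein_co {n : ℕ} {ι : Type} [Fintype ι] (A : Fin n → ι → ℝ) (h : (Fin n → ℝ) → ℝ)
    (h1 : Fin n → (Fin n → ℝ) → ℝ) (hd : Der h h1) (hg : Gr h) (hg1 : ∀ j, Gr (h1 j)) (l : Fin n) :
    EG A (fun x => x l * h x) = ∑ j, cv A l j * EG A (h1 j) := by
  have e1 : ∀ z : ι → ℝ, lin A z l * h (lin A z) = ∑ k, A l k * (z k * h (lin A z)) := by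
    intro z
    have e : lin A z l = ∑ k, A l k * z k := rfl
    rw [e, Finset.sum_mul]
    exact Finset.sum_congr rfl fun k _ => by ring
  have gI : ∀ k : ι, Integrable (fun z : ι → ℝ => A l k * (z k * h (lin A z))) (γ ι) := fun k =>
    (((Gr.coord k).mul (hg.comp_lin A)).const_mul _).int
  have e2 : ∀ k : ι, ∫ z, A l k * (z k * h (lin A z)) ∂(γ ι) =
      ∑ j, A l k * A j k * EG A (h1 j) := by
    intro k
    rw [integral_const_mul, steinlin A h h1 hd hg hg1 k, Finset.mul_sum]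
    exact Finset.sum_congr rfl fun j _ => by ring
  have e0 : EG A (fun x => x l * h x) = ∫ z, ∑ k, A l k * (z k * h (lin A z)) ∂(γ ι) :=
    integral_congr_ae (Filter.Eventually.of_forall e1)
  rw [e0, integral_finsetSum _ fun k _ => gI k, Finset.sum_congr rfl fun k _ => e2 k,
    Finset.sum_comm]
  refine Finset.sum_congr rfl fun j _ => ?_
  unfold cv
  rw [Finset.sum_mul]
-- END stc

-- BEGIN sm3
/-- a sum over `Fin 3` in any order -/
theorem sum3 {i j k : Fin 3} (hij : i ≠ j) (hik : i ≠ k) (hjk : j ≠ k) (f : Fin 3 → ℝ) :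
    ∑ m, f m = f i + f j + f k := by
  rw [Fin.sum_univ_three]
  fin_cases i <;> fin_cases j <;> fin_cases k <;> simp_all <;> ring

/-- the Gram form is nonnegative -/
theorem gram {ι : Type} [Fintype ι] (A : Fin 3 → ι → ℝ) (u : Fin 3 → ℝ) :
    0 ≤ ∑ i, ∑ j, u i * u j * cv A i j := by
  have h : ∑ i, ∑ j, u i * u j * cv A i j = ∑ k, (∑ i, u i * A i k) ^ 2 := by
    simp only [cv, Finset.mul_sum]
    have h1 : ∀ k, (∑ i, u i * A i k) ^ 2 = ∑ i, ∑ j, u i * u j * (A i k * A j k) := by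
      intro k
      rw [sq, Finset.sum_mul_sum]
      refine Finset.sum_congr rfl fun i _ => Finset.sum_congr rfl fun j _ => ?_
      ring
    simp only [h1]
    rw [Finset.sum_comm]
    have h2 : ∀ i, ∑ j, ∑ k, u i * u j * (A i k * A j k) =
        ∑ k, ∑ j, u i * u j * (A i k * A j k) := fun i => Finset.sum_comm
    conv_rhs => rw [Finset.sum_comm]
    rw [Finset.sum_comm]
    exact Finset.sum_congr rfl fun i _ => h2 i
  rw [h]
  exact Finset.sum_nonneg fun k _ => sq_nonneg _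

theorem cv_symm {ι : Type} [Fintype ι] (A : Fin 3 → ι → ℝ) (i j : Fin 3) : cv A i j = cv A j i := by
  exact Finset.sum_congr rfl fun k _ => mul_comm _ _
-- END sm3

-- BEGIN prm
private theorem prm_Sm (β : ℝ) (x : Fin 3 → ℝ) (σ : Equiv.Perm (Fin 3)) :
    Sm β (fun i => x (σ i)) = Sm β x := by
  unfold Sm
  exact Equiv.sum_comp σ (fun k => exp (β * x k))

/-- permuting the coordinates, `σ : Fin 3 → Fin 3` bijective -/
theorem EG_perm {ι : Type} [Fintype ι] (A : Fin 3 → ι → ℝ) (σ : Equiv.Perm (Fin 3))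
    (g : (Fin 3 → ℝ) → ℝ) : EG (fun i => A (σ i)) g = EG A (fun x => g (fun i => x (σ i))) := by
  rfl

theorem Lg_perm (β : ℝ) (x : Fin 3 → ℝ) (σ : Equiv.Perm (Fin 3)) :
    Lg β (fun i => x (σ i)) = Lg β x := by
  unfold Lg
  rw [prm_Sm]

theorem pw_perm (β : ℝ) (x : Fin 3 → ℝ) (σ : Equiv.Perm (Fin 3)) (i : Fin 3) :
    pw β (fun i => x (σ i)) i = pw β x (σ i) := by
  unfold pw
  rw [prm_Sm]

theorem exists_perm {i j k : Fin 3} (hij : i ≠ j) (hik : i ≠ k) (hjk : j ≠ k) :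
    ∃ σ : Equiv.Perm (Fin 3), σ 0 = i ∧ σ 1 = j ∧ σ 2 = k := by
  have hinj : Function.Injective (![i, j, k] : Fin 3 → Fin 3) := by
    intro a b hab
    fin_cases a <;> fin_cases b <;> first
      | rfl
      | exact absurd hab hij
      | exact absurd hab hik
      | exact absurd hab hjk
      | exact absurd hab hij.symm
      | exact absurd hab hik.symm
      | exact absurd hab hjk.symm
  exact ⟨Equiv.ofBijective _ (Finite.injective_iff_bijective.1 hinj), rfl, rfl, rfl⟩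
-- END prm

-- BEGIN rep
private theorem rep_aux (V W c : ℝ) (hWV : W ≤ V) (hcW : c ≤ W) (hW : 0 ≤ W)
    (hd : c ^ 2 ≤ V * W) :
    ∃ τ lam ω : ℝ, 0 ≤ lam ∧ lam ≤ 1 ∧ (1 + lam) ^ 2 * τ ^ 2 + ω ^ 2 = 4 * V ∧
      (lam - 1) ^ 2 * τ ^ 2 + ω ^ 2 = 4 * W ∧ (lam ^ 2 - 1) * τ ^ 2 + ω ^ 2 = 4 * c := by
  have hT : 0 ≤ V + W - 2 * c := by linarith
  rcases hT.eq_or_lt with h0 | h0
  · refine ⟨0, 0, Real.sqrt (4 * W), le_rfl, zero_le_one, ?_, ?_, ?_⟩ <;>
      rw [Real.sq_sqrt (by linarith)] <;> linarith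
  · refine ⟨Real.sqrt (V + W - 2 * c), (V - W) / (V + W - 2 * c),
      Real.sqrt (4 * (V * W - c ^ 2) / (V + W - 2 * c)), ?_, ?_, ?_, ?_, ?_⟩
    · exact div_nonneg (by linarith) hT
    · rw [div_le_one h0]
      linarith
    all_goals
      have hne : V + W - 2 * c ≠ 0 := h0.ne'
      rw [Real.sq_sqrt hT, Real.sq_sqrt (div_nonneg (by linarith) hT)]
      field_simp
      ring

/-- representation of a non-obtuse triangle by `Bm`.  `r ≤ 1`; if `r = 1` then `a = b` and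
`κ = σ = lam = 0`, `τ² = 2 - 2 a`, `ω² = 2 + 2 a`.  If `r < 1`: `σ² = (1-r)/2`, `κ = (a-b)/(1-r)`,
`V = 1 - κ² σ²`, `W = (1+r)/2`, `c = (a+b)/2`; `T = V + W - 2 c ≥ 0`, `V W - c² ≥ 0` (the form at
`(1, (-κ+t)/2, (κ+t)/2)` is `V + 2 c t + W t² ≥ 0` for all `t`), `W ≤ V` because `(a-b)² ≤ (1-r)²`,
`c ≤ W`; if `T > 0`: `τ² = T`, `lam = (V - W)/T`, `ω² = 4 (V W - c²)/T`; if `T = 0` then
`V = W = c`, `lam = 0`, `τ = 0`, `ω² = 4 W`. -/
theorem rep (a b r : ℝ)
    (hpsd : ∀ x y z : ℝ, 0 ≤ x ^ 2 + y ^ 2 + z ^ 2 + 2 * a * x * y + 2 * b * x * z + 2 * r * y * z)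
    (hab : b ≤ a) (h0 : a + b ≤ 1 + r) (h1 : a + r ≤ 1 + b) :
    ∃ κ σ τ lam ω : ℝ, 0 ≤ κ ∧ 0 ≤ lam ∧ lam ≤ 1 ∧
      κ ^ 2 * σ ^ 2 + (1 + lam) ^ 2 * τ ^ 2 / 4 + ω ^ 2 / 4 = 1 ∧
      σ ^ 2 + (lam - 1) ^ 2 * τ ^ 2 / 4 + ω ^ 2 / 4 = 1 ∧
      κ * σ ^ 2 + (lam ^ 2 - 1) * τ ^ 2 / 4 + ω ^ 2 / 4 = a ∧
      -(κ * σ ^ 2) + (lam ^ 2 - 1) * τ ^ 2 / 4 + ω ^ 2 / 4 = b ∧
      -σ ^ 2 + (lam - 1) ^ 2 * τ ^ 2 / 4 + ω ^ 2 / 4 = r := by
  have hr1 : r ≤ 1 := by
    have := hpsd 0 1 (-1)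
    linarith
  have hr0 : -1 ≤ r := by
    have := hpsd 0 1 1
    linarith
  have ha1 : a ≤ 1 := by
    have := hpsd 1 (-1) 0
    linarith
  have ha0 : -1 ≤ a := by
    have := hpsd 1 1 0
    linarith
  rcases hr1.eq_or_lt with hr | hr
  · have hab' : a = b := by
      have h2 := hpsd (-(a - b)) 1 (-1)
      rw [hr] at h2
      nlinarith [sq_nonneg (a - b)]
    refine ⟨0, 0, Real.sqrt (2 - 2 * a), 0, Real.sqrt (2 + 2 * a), le_rfl, le_rfl, zero_le_one,
      ?_, ?_, ?_, ?_, ?_⟩ <;>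
      rw [Real.sq_sqrt (by linarith), Real.sq_sqrt (by linarith)] <;> linarith
  · have hs : 0 < 1 - r := by linarith
    obtain ⟨κ, hκ⟩ : ∃ κ : ℝ, κ = (a - b) / (1 - r) := ⟨_, rfl⟩
    have hκ0 : 0 ≤ κ := by
      rw [hκ]
      exact div_nonneg (by linarith) hs.le
    have hκ1 : κ ≤ 1 := by
      rw [hκ, div_le_one hs]
      linarith
    have hκm : κ * (1 - r) = a - b := by
      rw [hκ, div_mul_cancel₀ _ hs.ne']
    have hform : ∀ t : ℝ, 0 ≤ (1 + r) / 2 * (t * t) + (a + b) * t + (1 - κ ^ 2 * ((1 - r) / 2)) := by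
      intro t
      refine (hpsd 1 ((t - κ) / 2) ((t + κ) / 2)).trans (le_of_eq ?_)
      have h2 : 1 ^ 2 + ((t - κ) / 2) ^ 2 + ((t + κ) / 2) ^ 2 + 2 * a * 1 * ((t - κ) / 2) +
          2 * b * 1 * ((t + κ) / 2) + 2 * r * ((t - κ) / 2) * ((t + κ) / 2) =
          (1 + r) / 2 * (t * t) + (a + b) * t + 1 + κ ^ 2 * (1 - r) / 2 - (a - b) * κ := by ring
      rw [h2, ← hκm]
      ring
    have hdisc := discrim_le_zero hform
    rw [discrim] at hdisc
    obtain ⟨τ, lam, ω, hl0, hl1, e1, e2, e3⟩ := rep_aux (1 - κ ^ 2 * ((1 - r) / 2)) ((1 + r) / 2)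
      ((a + b) / 2) (by
        have h2 : κ ^ 2 ≤ 1 := by nlinarith
        nlinarith) (by linarith) (by linarith) (by nlinarith)
    refine ⟨κ, Real.sqrt ((1 - r) / 2), τ, lam, ω, hκ0, hl0, hl1, ?_, ?_, ?_, ?_, ?_⟩ <;>
      rw [Real.sq_sqrt (by linarith)]
    · linarith
    · linarith
    · have : κ * ((1 - r) / 2) = (a - b) / 2 := by rw [← hκm]; ring
      rw [this]
      linarith
    · have : κ * ((1 - r) / 2) = (a - b) / 2 := by rw [← hκm]; ring
      rw [this]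
      linarith
    · linarith
-- END rep

-- BEGIN rrt
/-- a right triangle with the legs' cosines `1 + r - b`, `b` and hypotenuse `r`: rows
`(b, √(1-b²), 0)`, `(r, (1+r) √((1-b)/(1+b)), √(2 (1+r) (b-r)/(1+b)))`, `(1, 0, 0)` -/
theorem rep_right (b r : ℝ) (hb : b ≤ 1) (hr : -1 ≤ r) (hbr : r < b) :
    ∃ A : Fin 3 → Fin 3 → ℝ, (∀ i, cv A i i = 1) ∧ cv A 0 1 = 1 + r - b ∧ cv A 0 2 = b ∧
      cv A 1 2 = r := by
  have hb1 : 0 < 1 + b := by linarith
  have hr1 : 0 ≤ 1 + r := by linarith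
  have h1b : 0 ≤ 1 - b := by linarith
  obtain ⟨p, hp⟩ : ∃ p : ℝ, p = Real.sqrt ((1 - b) / (1 + b)) := ⟨_, rfl⟩
  obtain ⟨q, hq⟩ : ∃ q : ℝ, q = Real.sqrt (2 * (1 + r) * (b - r) / (1 + b)) := ⟨_, rfl⟩
  have hp2 : p * p = (1 - b) / (1 + b) := by
    rw [hp]
    exact Real.mul_self_sqrt (div_nonneg h1b hb1.le)
  have hq2 : q * q = 2 * (1 + r) * (b - r) / (1 + b) := by
    rw [hq]
    exact Real.mul_self_sqrt (div_nonneg (mul_nonneg (by positivity) (by linarith)) hb1.le)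
  refine ⟨![![b, (1 + b) * p, 0], ![r, (1 + r) * p, q], ![1, 0, 0]], ?_, ?_, ?_, ?_⟩
  · intro i
    fin_cases i
    · have h : b * b + (1 + b) * (1 + b) * (p * p) = 1 := by
        rw [hp2]
        field_simp
        ring
      simp [cv, Fin.sum_univ_three]
      linarith [h]
    · have h : r * r + (1 + r) * (1 + r) * (p * p) + q * q = 1 := by
        rw [hp2, hq2]
        field_simp
        ring
      simp [cv, Fin.sum_univ_three]
      linarith [h]
    · simp [cv, Fin.sum_univ_three]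
  · have h : b * r + (1 + b) * (1 + r) * (p * p) = 1 + r - b := by
      rw [hp2]
      field_simp
      ring
    simp [cv, Fin.sum_univ_three]
    linarith [h]
  · simp [cv, Fin.sum_univ_three]
  · simp [cv, Fin.sum_univ_three]
-- END rrt

-- BEGIN chb
/-- Chebyshev's sum inequality for three pairs -/
theorem cheb3 (d1 d2 d3 a1 a2 a3 : ℝ) (hd : 0 ≤ d1 + d2 + d3) (h1 : 0 ≤ a1) (h2 : 0 ≤ a2)
    (h3 : 0 ≤ a3) (h12 : 0 ≤ (d1 - d2) * (a1 - a2)) (h13 : 0 ≤ (d1 - d3) * (a1 - a3))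
    (h23 : 0 ≤ (d2 - d3) * (a2 - a3)) : 0 ≤ d1 * a1 + d2 * a2 + d3 * a3 := by
  have h0 : 0 ≤ (d1 + d2 + d3) * (a1 + a2 + a3) :=
    mul_nonneg hd (add_nonneg (add_nonneg h1 h2) h3)
  have h4 : 3 * (d1 * a1 + d2 * a2 + d3 * a3) = (d1 + d2 + d3) * (a1 + a2 + a3)
      + (d1 - d2) * (a1 - a2) + (d1 - d3) * (a1 - a3) + (d2 - d3) * (a2 - a3) := by ring
  linarith
-- END chb

end SM3
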