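import Pool.Agent.SMx.Fin

/-! MP_72ffec_pr: the soft-max projection inequality for three coordinates.  Definitions. -/

open MeasureTheory ProbabilityTheory Real
open scoped BigOperators ENNReal

namespace SM3

open SMx

/-- the logistic density `1 / (4 cosh² (w/2))` -/
noncomputable def kk (w : ℝ) : ℝ := 1 / (4 * cosh (w / 2) ^ 2)

/-- `log (2 cosh (w/2))` -/
noncomputable def EE (w : ℝ) : ℝ := log (2 * cosh (w / 2))

/-- `log (2 cosh u)` -/
noncomputable def ll (u : ℝ) : ℝ := log (2 * cosh u)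

/-- the odd function of the reflection argument -/
noncomputable def MM (lam l y : ℝ) : ℝ :=
  (kk (y - l) * EE (y - l) - kk (y + l) * EE (y + l)) + l / 2 * (kk (y - l) - kk (y + l)) +
    lam / 2 * y * (kk (y - l) + kk (y + l))

/-- the representing matrix: `x₀ = κ u + ((1+λ) η + ν)/2`, `x₁ = ((λ-1) η + ν)/2 + u`,
`x₂ = ((λ-1) η + ν)/2 - u` with `u = σ z₀`, `η = τ z₁`, `ν = ω z₂` -/
noncomputable def Bm (κ σ τ lam ω : ℝ) : Fin 3 → Fin 3 → ℝ :=
  ![![κ * σ, (1 + lam) * τ / 2, ω / 2], ![σ, (lam - 1) * τ / 2, ω / 2],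
    ![-σ, (lam - 1) * τ / 2, ω / 2]]

/-- `tanh u · k(w)` as a function of `z` -/
noncomputable def Qf (κ σ τ : ℝ) (z : Fin 3 → ℝ) : ℝ :=
  tanh (σ * z 0) * kk (κ * (σ * z 0) + τ * z 1 - ll (σ * z 0))

/-- the integrand without the part linear in `ν` -/
noncomputable def Tf (κ σ τ lam : ℝ) (z : Fin 3 → ℝ) : ℝ :=
  Qf κ σ τ z * ((κ * (σ * z 0) + ll (σ * z 0) + lam * (τ * z 1)) / 2 +
    EE (κ * (σ * z 0) + τ * z 1 - ll (σ * z 0)))

/-- first part of the symmetrised integrand -/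
noncomputable def Ta (κ σ τ lam : ℝ) (z : Fin 3 → ℝ) : ℝ :=
  tanh (σ * z 0) * MM lam (ll (σ * z 0)) (κ * (σ * z 0) + τ * z 1)

/-- second part of the symmetrised integrand -/
noncomputable def Tb (κ σ τ : ℝ) (z : Fin 3 → ℝ) : ℝ :=
  σ * z 0 * tanh (σ * z 0) * (kk (κ * (σ * z 0) + τ * z 1 - ll (σ * z 0)) +
    kk (κ * (σ * z 0) + τ * z 1 + ll (σ * z 0)))

/-- the triangle has no obtuse angle -/
def TT {ι : Type} [Fintype ι] (A : Fin 3 → ι → ℝ) : Prop :=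
  ∀ i j k : Fin 3, i ≠ j → i ≠ k → j ≠ k → cv A i j + cv A i k ≤ 1 + cv A j k

/-- the functional -/
noncomputable def FF {ι : Type} [Fintype ι] (β : ℝ) (A : Fin 3 → ι → ℝ) : ℝ :=
  EG A (fun x => (Lg β x + 1) ^ 2)

/-- `A_ij = E L π_i π_j` -/
noncomputable def AA {ι : Type} [Fintype ι] (β : ℝ) (A : Fin 3 → ι → ℝ) (i j : Fin 3) : ℝ :=
  EG A (fun x => Lg β x * (pw β x i * pw β x j))

end SM3
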