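import Pool.Agent.SM3.Bas

/-! MP_72ffec_pr, three coordinates: positivity, monotonicity, the path. -/

open MeasureTheory ProbabilityTheory Real
open scoped BigOperators ENNReal

namespace SM3

open SMx

theorem AA_symm {ι : Type} [Fintype ι] (β : ℝ) (A : Fin 3 → ι → ℝ) (i j : Fin 3) :
    AA β A i j = AA β A j i := by
  unfold AA
  congr 1
  funext x
  ring

-- BEGIN mco
private theorem mco_pt (κ σ τ lam ω : ℝ) (z : Fin 3 → ℝ) :
    Lg 1 (lin (Bm κ σ τ lam ω) z) * (pw 1 (lin (Bm κ σ τ lam ω) z) 0 *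
      (pw 1 (lin (Bm κ σ τ lam ω) z) 1 - pw 1 (lin (Bm κ σ τ lam ω) z) 2)) =
      Tf κ σ τ lam z + ω / 2 * (z 2 * Qf κ σ τ z) := by
  rw [lin_Bm, pt_Lg, pt_q]
  have e : κ * (σ * z 0) + ((1 + lam) * (τ * z 1) + ω * z 2) / 2 -
      ((lam - 1) * (τ * z 1) + ω * z 2) / 2 - ll (σ * z 0) =
      κ * (σ * z 0) + τ * z 1 - ll (σ * z 0) := by ring
  rw [e]
  unfold Tf Qf
  ring

private theorem mco_nu (κ σ τ : ℝ) : ∫ z, z 2 * Qf κ σ τ z ∂(γ (Fin 3)) = 0 := by
  have h := stein (Qf κ σ τ) (fun _ => 0) 2 (gr_Qf κ σ τ) (Gr.const 0) (fun z => by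
    have e : (fun t => Qf κ σ τ (Function.update z 2 t)) = fun _ => Qf κ σ τ z := by
      funext t
      unfold Qf
      have h0 : Function.update z 2 t 0 = z 0 := by
        rw [Function.update_of_ne (by decide)]
      have h1 : Function.update z 2 t 1 = z 1 := by
        rw [Function.update_of_ne (by decide)]
      rw [h0, h1]
    rw [e]
    exact hasDerivAt_const _ _)
  rw [h, integral_zero]

private theorem mco_ta (κ σ τ lam : ℝ) (hκ : 0 ≤ κ) (h0 : 0 ≤ lam) :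
    0 ≤ ∫ z, Ta κ σ τ lam z ∂(γ (Fin 3)) := by
  rw [fub (gr_Ta κ σ τ lam) 1]
  apply integral_nonneg
  intro z
  show 0 ≤ ∫ t, Ta κ σ τ lam (Function.update z 1 t) ∂(gaussianReal 0 1)
  have e : (fun t => Ta κ σ τ lam (Function.update z 1 t)) = fun t =>
      tanh (σ * z 0) * MM lam (ll (σ * z 0)) (κ * (σ * z 0) + τ * t) := by
    funext t
    unfold Ta
    have e0 : Function.update z 1 t 0 = z 0 := by
      rw [Function.update_of_ne (by decide)]
    rw [e0, Function.update_self]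
  rw [e, integral_const_mul]
  apply odd_shift (MM lam (ll (σ * z 0))) (MM_neg lam _)
    (fun y hy => MM_nonneg lam _ y h0 (ll_nonneg _) hy)
  rcases le_total 0 (σ * z 0) with h | h
  · exact Or.inl ⟨mul_nonneg hκ h, by rw [tanh_eq_sinh_div_cosh]; exact div_nonneg (sinh_nonneg_iff.2 h) (cosh_pos _).le⟩
  · exact Or.inr ⟨mul_nonpos_of_nonneg_of_nonpos hκ h, by
      rw [tanh_eq_sinh_div_cosh]; exact div_nonpos_of_nonpos_of_nonneg (sinh_nonpos_iff.2 h) (cosh_pos _).le⟩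

private theorem mco_tb (κ σ τ : ℝ) : 0 ≤ ∫ z, Tb κ σ τ z ∂(γ (Fin 3)) := by
  apply integral_nonneg
  intro z
  show 0 ≤ Tb κ σ τ z
  unfold Tb
  apply mul_nonneg _ (add_nonneg (kk_pos _).le (kk_pos _).le)
  rw [tanh_eq_sinh_div_cosh, mul_div_assoc']
  apply div_nonneg _ (cosh_pos _).le
  rcases le_total 0 (σ * z 0) with h | h
  · exact mul_nonneg h (sinh_nonneg_iff.2 h)
  · exact mul_nonneg_of_nonpos_of_nonpos h (sinh_nonpos_iff.2 h)

/-- the core of the monotonicity: `0 ≤ E L π₀ (π₁ - π₂)` at `Bm`.  By `lin_Bm`, `pt_Lg`, `pt_q` the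
integrand is `Tf + ω/2 * (z 2 * Qf z)`; the second part integrates to zero (`SMx.stein` with
`k = 2`, `Qf` does not depend on `z 2`); `2 ∫ Tf = ∫ Tf z + Tf (-z) = ∫ Ta + (1 - lam)/2 κ ∫ Tb`
(`int_neg`, `sym_T`), `Tb ≥ 0` pointwise and `∫ Ta ≥ 0` by `fub` with `k = 1` and `odd_shift` with
`N = MM lam (ll (σ z₀))`, `t = tanh (σ z₀)`, `a = κ σ z₀`. -/
theorem mono_core (κ σ τ lam ω : ℝ) (hκ : 0 ≤ κ) (h0 : 0 ≤ lam) (h1 : lam ≤ 1) :
    0 ≤ EG (Bm κ σ τ lam ω) (fun x => Lg 1 x * (pw 1 x 0 * (pw 1 x 1 - pw 1 x 2))) := by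
  have gT := gr_Tf κ σ τ lam
  have gQ : Gr (fun z : Fin 3 → ℝ => ω / 2 * (z 2 * Qf κ σ τ z)) :=
    ((Gr.coord 2).mul (gr_Qf κ σ τ)).const_mul _
  have e1 : EG (Bm κ σ τ lam ω) (fun x => Lg 1 x * (pw 1 x 0 * (pw 1 x 1 - pw 1 x 2))) =
      ∫ z, Tf κ σ τ lam z ∂(γ (Fin 3)) := by
    unfold EG
    rw [integral_congr_ae (Filter.Eventually.of_forall fun z => mco_pt κ σ τ lam ω z),
      integral_add gT.int gQ.int, integral_const_mul, mco_nu, mul_zero, add_zero]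
  have gN : Gr (fun z : Fin 3 → ℝ => Tf κ σ τ lam (-z)) := by
    have e : (fun z : Fin 3 → ℝ => Tf κ σ τ lam (-z)) = fun z =>
        Ta κ σ τ lam z + (1 - lam) / 2 * κ * Tb κ σ τ z - Tf κ σ τ lam z := by
      funext z
      rw [← sym_T]
      ring
    rw [e]
    exact ((gr_Ta κ σ τ lam).add ((gr_Tb κ σ τ).const_mul _)).sub gT
  have e2 : 2 * ∫ z, Tf κ σ τ lam z ∂(γ (Fin 3)) = ∫ z, Ta κ σ τ lam z ∂(γ (Fin 3)) +
      (1 - lam) / 2 * κ * ∫ z, Tb κ σ τ z ∂(γ (Fin 3)) := by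
    have h2 : 2 * ∫ z, Tf κ σ τ lam z ∂(γ (Fin 3)) =
        ∫ z, (Tf κ σ τ lam z + Tf κ σ τ lam (-z)) ∂(γ (Fin 3)) := by
      rw [integral_add gT.int gN.int, int_neg gT]
      ring
    rw [h2, integral_congr_ae (Filter.Eventually.of_forall fun z => sym_T κ σ τ lam z),
      integral_add (gr_Ta κ σ τ lam).int ((gr_Tb κ σ τ).const_mul _).int, integral_const_mul]
  have h3 := mco_ta κ σ τ lam hκ h0
  have h4 : 0 ≤ (1 - lam) / 2 * κ * ∫ z, Tb κ σ τ z ∂(γ (Fin 3)) :=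
    mul_nonneg (mul_nonneg (by linarith) hκ) (mco_tb κ σ τ)
  rw [e1]
  linarith
-- END mco

-- BEGIN scl
/-- scaling: `β` is absorbed in the matrix -/
theorem AA_scale {ι : Type} [Fintype ι] (β : ℝ) (A : Fin 3 → ι → ℝ) (i j : Fin 3) :
    AA β A i j = AA 1 (fun i k => β * A i k) i j := by
  have h1 : ∀ (z : ι → ℝ) (k : Fin 3), lin (fun i k => β * A i k) z k = β * lin A z k := by
    intro z k
    unfold lin
    rw [Finset.mul_sum]
    exact Finset.sum_congr rfl fun l _ => by ring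
  have h2 : ∀ z : ι → ℝ, Sm 1 (lin (fun i k => β * A i k) z) = Sm β (lin A z) := by
    intro z
    unfold Sm
    exact Finset.sum_congr rfl fun k _ => by rw [h1, one_mul]
  unfold AA EG
  congr 1
  funext z
  unfold Lg pw
  beta_reduce
  rw [h2, h1, h1, one_mul, one_mul]
-- END scl

-- BEGIN mrp
private theorem mrp_gr (β : ℝ) (i j : Fin 3) :
    Gr (fun x : Fin 3 → ℝ => Lg β x * (pw β x i * pw β x j)) :=
  (Gr.Lg β).mul ((Gr.pw β i).mul (Gr.pw β j))

private theorem mrp_scale (κ σ τ lam ω β : ℝ) :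
    (fun i k => β * Bm κ σ τ lam ω i k) = Bm κ (β * σ) (β * τ) lam (β * ω) := by
  funext i k
  fin_cases i <;> fin_cases k <;> simp [Bm] <;> ring

private theorem mrp_congr {ι : Type} [Fintype ι] (A : Fin 3 → ι → ℝ) (β κ σ τ lam ω : ℝ)
    (h : ∀ i j, cv A i j = cv (Bm κ σ τ lam ω) i j) (i j : Fin 3) :
    AA β A i j = AA 1 (Bm κ (β * σ) (β * τ) lam (β * ω)) i j := by
  have h1 : AA β A i j = AA β (Bm κ σ τ lam ω) i j := EG_congr A (Bm κ σ τ lam ω) h (mrp_gr β i j)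
  rw [h1, AA_scale, mrp_scale]

/-- monotonicity for the indices `0, 1, 2` (from `rep`, `cv_Bm`, `EG_congr`, `AA_scale`, `gram`,
`mono_core` with the parameters `κ, β σ, β τ, lam, β ω`) -/
theorem mono012 {ι : Type} [Fintype ι] (A : Fin 3 → ι → ℝ) (hA : ∀ i, cv A i i = 1) (β : ℝ)
    (h : cv A 0 2 ≤ cv A 0 1) (h0 : cv A 0 1 + cv A 0 2 ≤ 1 + cv A 1 2)
    (h1 : cv A 0 1 + cv A 1 2 ≤ 1 + cv A 0 2) : AA β A 0 2 ≤ AA β A 0 1 := by
  have hpsd : ∀ x y z : ℝ, 0 ≤ x ^ 2 + y ^ 2 + z ^ 2 + 2 * cv A 0 1 * x * y +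
      2 * cv A 0 2 * x * z + 2 * cv A 1 2 * y * z := by
    intro x y z
    have h2 := gram A ![x, y, z]
    simp only [Fin.sum_univ_three, Matrix.cons_val_zero, Matrix.cons_val_one,
      Matrix.cons_val_two, Matrix.head_cons, Matrix.tail_cons] at h2
    rw [hA 0, hA 1, hA 2, cv_symm A 1 0, cv_symm A 2 0, cv_symm A 2 1] at h2
    linarith
  obtain ⟨κ, σ, τ, lam, ω, hκ, hl0, hl1, e00, e11, e01, e02, e12⟩ :=
    rep (cv A 0 1) (cv A 0 2) (cv A 1 2) hpsd h h0 h1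
  obtain ⟨c00, c11, c22, c01, c10, c02, c20, c12, c21⟩ := cv_Bm κ σ τ lam ω
  have hcv : ∀ i j, cv A i j = cv (Bm κ σ τ lam ω) i j := by
    intro i j
    fin_cases i <;> fin_cases j
    · show cv A 0 0 = cv (Bm κ σ τ lam ω) 0 0
      rw [hA 0, c00, e00]
    · show cv A 0 1 = cv (Bm κ σ τ lam ω) 0 1
      rw [c01, e01]
    · show cv A 0 2 = cv (Bm κ σ τ lam ω) 0 2
      rw [c02, e02]
    · show cv A 1 0 = cv (Bm κ σ τ lam ω) 1 0
      rw [cv_symm A 1 0, c10, e01]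
    · show cv A 1 1 = cv (Bm κ σ τ lam ω) 1 1
      rw [hA 1, c11, e11]
    · show cv A 1 2 = cv (Bm κ σ τ lam ω) 1 2
      rw [c12, e12]
    · show cv A 2 0 = cv (Bm κ σ τ lam ω) 2 0
      rw [cv_symm A 2 0, c20, e02]
    · show cv A 2 1 = cv (Bm κ σ τ lam ω) 2 1
      rw [cv_symm A 2 1, c21, e12]
    · show cv A 2 2 = cv (Bm κ σ τ lam ω) 2 2
      rw [hA 2, c22, e11]
  rw [mrp_congr A β κ σ τ lam ω hcv 0 2, mrp_congr A β κ σ τ lam ω hcv 0 1]
  have hm := mono_core κ (β * σ) (β * τ) lam (β * ω) hκ hl0 hl1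
  have hs := EG_sub (mrp_gr 1 0 1) (mrp_gr 1 0 2) (Bm κ (β * σ) (β * τ) lam (β * ω))
  have he : (fun x : Fin 3 → ℝ => Lg 1 x * (pw 1 x 0 * (pw 1 x 1 - pw 1 x 2))) =
      fun x : Fin 3 → ℝ => Lg 1 x * (pw 1 x 0 * pw 1 x 1) - Lg 1 x * (pw 1 x 0 * pw 1 x 2) := by
    funext x
    ring
  rw [he, hs] at hm
  unfold AA
  linarith
-- END mrp

-- BEGIN mon
private theorem mon_perm {ι : Type} [Fintype ι] (A : Fin 3 → ι → ℝ) (β : ℝ)
    (σ : Equiv.Perm (Fin 3)) (p q : Fin 3) :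
    AA β (fun m => A (σ m)) p q = AA β A (σ p) (σ q) := by
  unfold AA
  rw [EG_perm]
  congr 1
  funext x
  rw [Lg_perm, pw_perm, pw_perm]

/-- monotonicity for any vertex (from `mono012` by `EG_perm`, `Lg_perm`, `pw_perm`, `exists_perm`) -/
theorem monoA {ι : Type} [Fintype ι] (A : Fin 3 → ι → ℝ) (hA : ∀ i, cv A i i = 1) (hT : TT A)
    (β : ℝ) {i j k : Fin 3} (hij : i ≠ j) (hik : i ≠ k) (hjk : j ≠ k)
    (h : cv A i k ≤ cv A i j) : AA β A i k ≤ AA β A i j := by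
  obtain ⟨σ, rfl, rfl, rfl⟩ := exists_perm hij hik hjk
  have hc : ∀ p q, cv A p q = cv A q p := by
    intro p q
    unfold cv
    exact Finset.sum_congr rfl fun m _ => mul_comm _ _
  have key := mono012 (fun m => A (σ m)) (fun m => hA (σ m)) β h
    (hT (σ 0) (σ 1) (σ 2) hij hik hjk)
    (by
      have h1 := hT (σ 1) (σ 0) (σ 2) hij.symm hjk hik
      rw [hc (σ 1) (σ 0)] at h1
      exact h1)
  rw [mon_perm, mon_perm] at key
  exact key
-- END mon

-- BEGIN pos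
/-- positivity.  `Lg β x ≥ β (x_i + x_j)/2` (two terms of the sum of exponentials and AM-GM), so
`A_ij ≥ (β/2) E (x_i + x_j) π_i π_j`; by `stein_co` with `∂_m (π_i π_j) = β π_i π_j (δ_im + δ_jm -
2 π_m)` and `π_i + π_j = 1 - π_k` this is
`β² (1 + cv i j - cv i k - cv j k) E (π_i π_j π_k) ≥ 0`. -/
theorem posA {ι : Type} [Fintype ι] (A : Fin 3 → ι → ℝ) (hA : ∀ i, cv A i i = 1) (β : ℝ)
    (hβ : 0 < β) {i j k : Fin 3} (hij : i ≠ j) (hik : i ≠ k) (hjk : j ≠ k)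
    (h : cv A i k + cv A j k ≤ 1 + cv A i j) : 0 ≤ AA β A i j := by
  have hn : 0 < 3 := by norm_num
  have hP : Gr (fun x : Fin 3 → ℝ => pw β x i * pw β x j) := (Gr.pw β i).mul (Gr.pw β j)
  have hPm : ∀ m, Gr (fun x : Fin 3 → ℝ => pw β x i * pw β x j * pw β x m) := fun m =>
    hP.mul (Gr.pw β m)
  have hP0 : ∀ x : Fin 3 → ℝ, 0 ≤ pw β x i * pw β x j := fun x =>
    mul_nonneg (pw_nonneg β x i) (pw_nonneg β x j)
  obtain ⟨D, hD⟩ : ∃ D : Fin 3 → (Fin 3 → ℝ) → ℝ, ∀ m x, D m x =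
      β * ((if i = m then 1 else 0) + (if j = m then 1 else 0)) * (pw β x i * pw β x j) +
        (-2 * β) * (pw β x i * pw β x j * pw β x m) := ⟨_, fun m x => rfl⟩
  have hDer : Der (fun x : Fin 3 → ℝ => pw β x i * pw β x j) D := by
    refine ((der_pw β i).mul (der_pw β j)).congr fun m x => ?_
    rw [hD]
    ring
  have hDf : ∀ m, D m = fun x => β * ((if i = m then 1 else 0) + (if j = m then 1 else 0)) *
      (pw β x i * pw β x j) + (-2 * β) * (pw β x i * pw β x j * pw β x m) := fun m =>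
    funext fun x => hD m x
  have hDg : ∀ m, Gr (D m) := by
    intro m
    rw [hDf]
    exact (hP.const_mul _).add ((hPm m).const_mul _)
  obtain ⟨E0, hE0⟩ : ∃ E0 : ℝ, E0 = EG A (fun x => pw β x i * pw β x j) := ⟨_, rfl⟩
  obtain ⟨Em, hEm⟩ : ∃ Em : Fin 3 → ℝ, ∀ m, Em m = EG A (fun x => pw β x i * pw β x j * pw β x m) :=
    ⟨_, fun m => rfl⟩
  have hED : ∀ m, EG A (D m) = β * ((if i = m then 1 else 0) + (if j = m then 1 else 0)) * E0 +
      (-2 * β) * Em m := by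
    intro m
    rw [hDf, EG_add (hP.const_mul _) ((hPm m).const_mul _), EG_const_mul, EG_const_mul, ← hE0, ← hEm]
  have hsum : E0 = Em i + Em j + Em k := by
    rw [hE0, hEm, hEm, hEm, ← EG_add (hPm i) (hPm j), ← EG_add ((hPm i).add (hPm j)) (hPm k)]
    congr 1
    funext x
    have h1 := pw_sum hn β x
    rw [sum3 hij hik hjk] at h1
    rw [← mul_add, ← mul_add, h1, mul_one]
  have hk0 : 0 ≤ Em k := by
    have h1 := EG_mono (Gr.const 0) (hPm k) (fun x => mul_nonneg (hP0 x) (pw_nonneg β x k)) A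
    rw [EG_const] at h1
    rw [hEm]
    exact h1
  have hst : ∀ l : Fin 3, EG A (fun x => x l * (pw β x i * pw β x j)) =
      cv A l i * (β * E0 - 2 * β * Em i) + cv A l j * (β * E0 - 2 * β * Em j) +
        cv A l k * (-(2 * β * Em k)) := by
    intro l
    rw [stein_co A _ D hDer hP hDg l, sum3 hij hik hjk, hED, hED, hED, if_pos rfl, if_neg hij.symm,
      if_neg hij, if_pos rfl, if_neg hik, if_neg hjk]
    ring
  have hlow : ∀ x : Fin 3 → ℝ, β / 2 * (x i * (pw β x i * pw β x j)) +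
      β / 2 * (x j * (pw β x i * pw β x j)) ≤ Lg β x * (pw β x i * pw β x j) := by
    intro x
    have h1 : β / 2 * (x i + x j) ≤ Lg β x := by
      unfold Lg
      rw [le_log_iff_exp_le (Sm_pos hn β x)]
      have h2 : ∀ m : Fin 3, exp (β * x m) ≤ Sm β x := fun m => by
        unfold Sm
        exact Finset.single_le_sum (f := fun k => exp (β * x k)) (fun k _ => (exp_pos _).le)
          (Finset.mem_univ m)
      rcases le_total (x i) (x j) with h3 | h3
      · refine (exp_le_exp.2 ?_).trans (h2 j)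
        nlinarith
      · refine (exp_le_exp.2 ?_).trans (h2 i)
        nlinarith
    have h2 := mul_le_mul_of_nonneg_right h1 (hP0 x)
    linarith
  have hgi : ∀ l : Fin 3, Gr (fun x : Fin 3 → ℝ => x l * (pw β x i * pw β x j)) := fun l =>
    (Gr.coord l).mul hP
  have hmain := EG_mono (((hgi i).const_mul (β / 2)).add ((hgi j).const_mul (β / 2)))
    ((Gr.Lg β).mul hP) hlow A
  rw [EG_add ((hgi i).const_mul _) ((hgi j).const_mul _), EG_const_mul, EG_const_mul, hst i, hst j,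
    hA i, hA j, cv_symm A j i] at hmain
  unfold AA
  refine le_trans ?_ hmain
  have h5 : 0 ≤ β ^ 2 * ((1 + cv A i j - cv A i k - cv A j k) * Em k) :=
    mul_nonneg (sq_nonneg _) (mul_nonneg (by linarith) hk0)
  have h6 : β / 2 * (1 * (β * E0 - 2 * β * Em i) + cv A i j * (β * E0 - 2 * β * Em j) +
        cv A i k * (-(2 * β * Em k))) +
      β / 2 * (cv A i j * (β * E0 - 2 * β * Em i) + 1 * (β * E0 - 2 * β * Em j) +
        cv A j k * (-(2 * β * Em k))) =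
      β ^ 2 * ((1 + cv A i j - cv A i k - cv A j k) * Em k) := by
    rw [hsum]
    ring
  rw [h6]
  exact h5
-- END pos

-- BEGIN tti
/-- the condition `TT` from its three inequalities -/
theorem TT_of {ι : Type} [Fintype ι] (A : Fin 3 → ι → ℝ)
    (h0 : cv A 0 1 + cv A 0 2 ≤ 1 + cv A 1 2) (h1 : cv A 0 1 + cv A 1 2 ≤ 1 + cv A 0 2)
    (h2 : cv A 0 2 + cv A 1 2 ≤ 1 + cv A 0 1) : TT A := by
  have s01 := cv_symm A 0 1
  have s02 := cv_symm A 0 2
  have s12 := cv_symm A 1 2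
  intro i j k hij hik hjk
  fin_cases i <;> fin_cases j <;> fin_cases k <;> simp at hij hik hjk ⊢ <;> linarith

/-- along a path the condition is kept -/
theorem TT_path (a b : Fin 3 → Fin 3 → ℝ) (ha : TT a) (hb : TT b) (θ : ℝ) : TT (path a b θ) := by
  intro i j k hij hik hjk
  have h1 := ha i j k hij hik hjk
  have h2 := hb i j k hij hik hjk
  have h3 := Real.sin_sq_add_cos_sq θ
  rw [pathcv, pathcv, pathcv]
  nlinarith [mul_le_mul_of_nonneg_left h1 (sq_nonneg (cos θ)),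
    mul_le_mul_of_nonneg_left h2 (sq_nonneg (sin θ))]

theorem TT_spx : TT (spx 3) := by
  intro i j k hij hik hjk
  rw [spx_cv (by norm_num), spx_cv (by norm_num), spx_cv (by norm_num), if_neg hij, if_neg hik,
    if_neg hjk]
  norm_num
-- END tti

-- BEGIN dqa
/-- expansion of the derivative: for a symmetric `Δ` with zero diagonal -/
theorem EG_qA {ι : Type} [Fintype ι] (A : Fin 3 → ι → ℝ) (Δ : Fin 3 → Fin 3 → ℝ)
    (h0 : ∀ i, Δ i i = 0) (hs : ∀ i j, Δ i j = Δ j i) (β : ℝ) :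
    EG A (fun x => Lg β x * qA Δ β x) =
      2 * (Δ 0 1 * AA β A 0 1 + Δ 0 2 * AA β A 0 2 + Δ 1 2 * AA β A 1 2) := by
  have hg : ∀ i j : Fin 3, Gr (fun x : Fin 3 → ℝ => Lg β x * (pw β x i * pw β x j)) :=
    fun i j => (Gr.Lg β).mul ((Gr.pw β i).mul (Gr.pw β j))
  have e1 : (fun x : Fin 3 → ℝ => Lg β x * qA Δ β x) = fun x =>
      2 * (Δ 0 1 * (Lg β x * (pw β x 0 * pw β x 1)) + Δ 0 2 * (Lg β x * (pw β x 0 * pw β x 2)) +
        Δ 1 2 * (Lg β x * (pw β x 1 * pw β x 2))) := by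
    funext x
    unfold qA
    simp only [Fin.sum_univ_three, h0, hs 1 0, hs 2 0, hs 2 1]
    ring
  rw [e1, EG_const_mul, EG_add (((hg 0 1).const_mul _).add ((hg 0 2).const_mul _))
    ((hg 1 2).const_mul _), EG_add ((hg 0 1).const_mul _) ((hg 0 2).const_mul _), EG_const_mul,
    EG_const_mul, EG_const_mul]
  rfl
-- END dqa

-- BEGIN inc
/-- if the expectation in the derivative is `≤ 0` along the path, the functional increases
(`SMx.derG`, `SMx.path_zero`, `SMx.path_pi`, monotone on `[0, π/2]`) -/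
theorem FF_le (a b : Fin 3 → Fin 3 → ℝ) (ha : ∀ i, cv a i i = 1) (hb : ∀ i, cv b i i = 1) (β : ℝ)
    (h : ∀ θ, 0 ≤ θ → θ ≤ π / 2 → EG (path a b θ) (fun x => Lg β x * qA (dl a b) β x) ≤ 0) :
    FF β a ≤ FF β b := by
  have hdl : ∀ i, dl a b i i = 0 := by
    intro i
    unfold dl
    rw [ha i, hb i, sub_self]
  have hderiv := derG (by norm_num : 0 < 3) a b hdl β
  have hmono : MonotoneOn (fun t => EG (path a b t) (fun x => (Lg β x + 1) ^ 2))
      (Set.Icc 0 (π / 2)) := by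
    apply monotoneOn_of_deriv_nonneg (convex_Icc _ _)
    · exact fun t _ => (hderiv t).continuousAt.continuousWithinAt
    · exact fun t _ => (hderiv t).differentiableAt.differentiableWithinAt
    · intro t ht
      rw [interior_Icc] at ht
      rw [(hderiv t).deriv]
      have hs : 0 ≤ sin t := sin_nonneg_of_nonneg_of_le_pi ht.1.le (by linarith [ht.2, pi_pos])
      have hcs : 0 ≤ cos t := cos_nonneg_of_neg_pi_div_two_le_of_le (by linarith [ht.1, pi_pos]) ht.2.le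
      have h2 := h t ht.1.le ht.2.le
      have h3 : 0 ≤ 2 * β ^ 2 * (sin t * cos t) := by positivity
      nlinarith [mul_nonneg h3 (neg_nonneg.mpr h2)]
  have gG : Gr (fun x : Fin 3 → ℝ => (Lg β x + 1) ^ 2) := ((Gr.Lg β).add (Gr.const 1)).sq
  have h5 := hmono ⟨le_rfl, by positivity⟩ ⟨by positivity, le_rfl⟩ (by positivity : (0:ℝ) ≤ π / 2)
  simp only at h5
  rw [path_zero a b gG, path_pi a b gG] at h5
  exact h5
-- END inc

-- BEGIN cot
private theorem cot_pair {ι : Type} [Fintype ι] (A : Fin 3 → ι → ℝ) (hA : ∀ i, cv A i i = 1)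
    (hT : TT A) (β : ℝ) (x : ℝ) {i j k : Fin 3} (hij : i ≠ j) (hik : i ≠ k) (hjk : j ≠ k)
    (h1 : 0 ≤ x → cv A i k ≤ cv A i j) (h2 : x ≤ 0 → cv A i j ≤ cv A i k) :
    0 ≤ x * (AA β A i j - AA β A i k) := by
  rcases le_total 0 x with h | h
  · exact mul_nonneg h (sub_nonneg.2 (monoA A hA hT β hij hik hjk (h1 h)))
  · have h3 := monoA A hA hT β hik hij hjk.symm (h2 h)
    have h4 := mul_nonneg (neg_nonneg.2 h) (sub_nonneg.2 h3)
    have h5 : x * (AA β A i j - AA β A i k) = -x * (AA β A i k - AA β A i j) := by ring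
    rw [h5]
    exact h4

private theorem cot_pos {ι : Type} [Fintype ι] (A : Fin 3 → ι → ℝ) (hA : ∀ i, cv A i i = 1)
    (hT : TT A) (β : ℝ) (hβ : 0 < β) {i j k : Fin 3} (hij : i ≠ j) (hik : i ≠ k) (hjk : j ≠ k) :
    0 ≤ AA β A i j := by
  refine posA A hA β hβ hij hik hjk ?_
  have h := hT k i j hik.symm hjk.symm hij
  rw [cv_symm A k i, cv_symm A k j] at h
  exact h

/-- non-obtuse case: from `FF_le`, `EG_qA`, `cheb3`, `monoA`, `posA` along `path a (spx 3) θ`;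
`dl a (spx 3) i j = -(cv a i j + 1/2)` off the diagonal, `cv (path) = cos² cv a + sin² (-1/2)`,
`∑ (cv a i j + 1/2) ≥ 0` by `gram` at `(1, 1, 1)` -/
theorem core_TT (a : Fin 3 → Fin 3 → ℝ) (ha : ∀ i, cv a i i = 1) (hT : TT a) (β : ℝ) (hβ : 0 < β) :
    FF β a ≤ FF β (spx 3) := by
  have hn : 2 ≤ 3 := by norm_num
  have hs : ∀ i j : Fin 3, i ≠ j → cv (spx 3) i j = -1 / 2 := by
    intro i j hij
    rw [spx_cv hn, if_neg hij]
    norm_num
  have hs1 : ∀ i : Fin 3, cv (spx 3) i i = 1 := by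
    intro i
    rw [spx_cv hn, if_pos rfl]
  have n01 : (0 : Fin 3) ≠ 1 := by decide
  have n02 : (0 : Fin 3) ≠ 2 := by decide
  have n12 : (1 : Fin 3) ≠ 2 := by decide
  refine FF_le a (spx 3) ha hs1 β fun θ _ _ => ?_
  have hA : ∀ i, cv (path a (spx 3) θ) i i = 1 := fun i => path_unit hn a ha θ i
  have hTA : TT (path a (spx 3) θ) := TT_path a (spx 3) hT TT_spx θ
  have hc : ∀ i j : Fin 3, i ≠ j →
      cv (path a (spx 3) θ) i j = cos θ ^ 2 * cv a i j + sin θ ^ 2 * (-1 / 2) := by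
    intro i j hij
    rw [pathcv, hs i j hij]
  have hcmp : ∀ i j k : Fin 3, i ≠ j → i ≠ k → cv a i k ≤ cv a i j →
      cv (path a (spx 3) θ) i k ≤ cv (path a (spx 3) θ) i j := by
    intro i j k hij hik h
    rw [hc i j hij, hc i k hik]
    have h1 := mul_le_mul_of_nonneg_left h (sq_nonneg (cos θ))
    linarith
  have hd : ∀ i j : Fin 3, i ≠ j → dl a (spx 3) i j = -(cv a i j + 1 / 2) := by
    intro i j hij
    unfold dl
    rw [hs i j hij]
    ring
  rw [EG_qA (path a (spx 3) θ) (dl a (spx 3)) (fun i => by unfold dl; rw [hs1, ha]; ring)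
    (fun i j => by unfold dl; rw [cv_symm a i j, cv_symm (spx 3) i j]) β, hd 0 1 n01, hd 0 2 n02,
    hd 1 2 n12]
  have hsum : 0 ≤ (cv a 0 1 + 1 / 2) + (cv a 0 2 + 1 / 2) + (cv a 1 2 + 1 / 2) := by
    have hg := gram a (fun _ => 1)
    simp only [Fin.sum_univ_three, one_mul] at hg
    rw [ha 0, ha 1, ha 2, cv_symm a 1 0, cv_symm a 2 0, cv_symm a 2 1] at hg
    linarith
  have key := cheb3 (cv a 0 1 + 1 / 2) (cv a 0 2 + 1 / 2) (cv a 1 2 + 1 / 2)
    (AA β (path a (spx 3) θ) 0 1) (AA β (path a (spx 3) θ) 0 2) (AA β (path a (spx 3) θ) 1 2) hsum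
    (cot_pos _ hA hTA β hβ n01 n02 n12) (cot_pos _ hA hTA β hβ n02 n01 n12.symm)
    (cot_pos _ hA hTA β hβ n12 n01.symm n02.symm) ?_ ?_ ?_
  · linarith
  · refine cot_pair _ hA hTA β _ n01 n02 n12 (fun h => hcmp 0 1 2 n01 n02 (by linarith))
      (fun h => hcmp 0 2 1 n02 n01 (by linarith))
  · rw [AA_symm β _ 0 1]
    refine cot_pair _ hA hTA β _ n01.symm n12 n02
      (fun h => hcmp 1 0 2 n01.symm n12 (by rw [cv_symm a 1 0]; linarith))
      (fun h => hcmp 1 2 0 n12 n01.symm (by rw [cv_symm a 1 0]; linarith))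
  · rw [AA_symm β _ 0 2, AA_symm β _ 1 2]
    refine cot_pair _ hA hTA β _ n02.symm n12.symm n01
      (fun h => hcmp 2 0 1 n02.symm n12.symm (by rw [cv_symm a 2 0, cv_symm a 2 1]; linarith))
      (fun h => hcmp 2 1 0 n12.symm n02.symm (by rw [cv_symm a 2 0, cv_symm a 2 1]; linarith))
-- END cot

-- BEGIN obt
/-- an obtuse angle at `0` is straightened by lowering `ρ₀₁` only: `b` from `rep_right` with
`b := cv a 0 2`, `r := cv a 1 2`; along the path the angle at `2` is not obtuse, so `AA β _ 0 1 ≥ 0`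
by `posA` with `(i, j, k) = (0, 1, 2)`. -/
theorem obtuse (a : Fin 3 → Fin 3 → ℝ) (ha : ∀ i, cv a i i = 1)
    (h : 1 + cv a 1 2 < cv a 0 1 + cv a 0 2) (β : ℝ) (hβ : 0 < β) :
    ∃ b : Fin 3 → Fin 3 → ℝ, (∀ i, cv b i i = 1) ∧ TT b ∧ FF β a ≤ FF β b := by
  have hb1 := abs_le.1 (cv_abs a ha 0 2)
  have hr1 := abs_le.1 (cv_abs a ha 1 2)
  have h01 := abs_le.1 (cv_abs a ha 0 1)
  have hbr : cv a 1 2 < cv a 0 2 := by linarith [h01.2]
  obtain ⟨b, hb, e01, e02, e12⟩ := rep_right (cv a 0 2) (cv a 1 2) hb1.2 hr1.1 hbr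
  refine ⟨b, hb, TT_of b ?_ ?_ ?_, FF_le a b ha hb β fun θ _ _ => ?_⟩
  · rw [e01, e02, e12]
    linarith
  · rw [e01, e02, e12]
    linarith
  · rw [e01, e02, e12]
    linarith [hb1.2]
  · have hd0 : ∀ i, dl a b i i = 0 := fun i => by
      unfold dl
      rw [ha, hb, sub_self]
    have hds : ∀ i j, dl a b i j = dl a b j i := fun i j => by
      unfold dl
      rw [cv_symm a i j, cv_symm b i j]
    rw [EG_qA (path a b θ) (dl a b) hd0 hds β]
    have d02 : dl a b 0 2 = 0 := by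
      unfold dl
      rw [e02, sub_self]
    have d12 : dl a b 1 2 = 0 := by
      unfold dl
      rw [e12, sub_self]
    have d01 : dl a b 0 1 ≤ 0 := by
      unfold dl
      rw [e01]
      linarith
    have hp : ∀ i, cv (path a b θ) i i = 1 := fun i => by
      rw [pathcv, ha, hb, mul_one, mul_one]
      exact Real.cos_sq_add_sin_sq θ
    have hc : 0 ≤ AA β (path a b θ) 0 1 := by
      refine posA (path a b θ) hp β hβ (i := 0) (j := 1) (k := 2) (by decide) (by decide)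
        (by decide) ?_
      simp only [pathcv]
      rw [e01, e02, e12]
      have hs : sin θ ^ 2 = 1 - cos θ ^ 2 := by
        have := Real.cos_sq_add_sin_sq θ
        linarith
      have h1 : cos θ ^ 2 * (1 + cv a 1 2 - cv a 0 2) ≤ cos θ ^ 2 * cv a 0 1 :=
        mul_le_mul_of_nonneg_left (by linarith) (sq_nonneg _)
      rw [hs]
      nlinarith [h1, hb1.2]
    rw [d02, d12, zero_mul, zero_mul, add_zero, add_zero]
    have := mul_nonneg_of_nonpos_of_nonpos d01 (neg_nonpos.2 hc)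
    linarith
-- END obt

-- BEGIN cor
/-- the functional does not depend on the order of the coordinates -/
theorem FF_perm {ι : Type} [Fintype ι] (A : Fin 3 → ι → ℝ) (σ : Equiv.Perm (Fin 3)) (β : ℝ) :
    FF β (fun i => A (σ i)) = FF β A := by
  show EG (fun i => A (σ i)) (fun x => (Lg β x + 1) ^ 2) = EG A (fun x => (Lg β x + 1) ^ 2)
  rw [EG_perm A σ]
  congr 1
  funext x
  show (Lg β (fun i => x (σ i)) + 1) ^ 2 = (Lg β x + 1) ^ 2
  rw [Lg_perm β x σ]

/-- every case (an obtuse angle at `1` or `2` is moved to `0` by a permutation) -/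
theorem core3 (a : Fin 3 → Fin 3 → ℝ) (ha : ∀ i, cv a i i = 1) (β : ℝ) (hβ : 0 < β) :
    FF β a ≤ FF β (spx 3) := by
  by_cases hT : TT a
  · exact core_TT a ha hT β hβ
  · unfold TT at hT
    push Not at hT
    obtain ⟨i, j, k, hij, hik, hjk, h⟩ := hT
    obtain ⟨σ, h0, h1, h2⟩ := exists_perm hij hik hjk
    obtain ⟨b, hb1, hbT, hle⟩ := obtuse (fun i => a (σ i)) (fun i => ha (σ i)) (by
      show 1 + cv a (σ 1) (σ 2) < cv a (σ 0) (σ 1) + cv a (σ 0) (σ 2)
      rw [h0, h1, h2]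
      exact h) β hβ
    rw [FF_perm a σ β] at hle
    exact hle.trans (core_TT b hb1 hbT β hβ)
-- END cor

-- BEGIN fin3
/-- the soft-max inequality (the proof of `SMx.final` with `core3` in place of `core`, `n = 3`) -/
theorem soft3 {Ω : Type*} [MeasurableSpace Ω] (β : ℝ) (hβ : 0 < β)
    (P : Measure Ω) [IsProbabilityMeasure P] {Ω' : Type*} [MeasurableSpace Ω'] (P' : Measure Ω')
    [IsProbabilityMeasure P'] (X : Ω → Fin 3 → ℝ) (S : Ω' → Fin 3 → ℝ) (hX : CG P X) (hS : CG P' S)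
    (hX1 : ∀ i, ∫ ω, X ω i ^ 2 ∂P = 1)
    (hS1 : ∀ i j, ∫ ω, S ω i * S ω j ∂P' = if i = j then 1 else -1 / 2)
    (G : Ω → ℝ) (G' : Ω' → ℝ) (hG : IsPerp P X (fun ω => sm β (X ω)) G)
    (hG' : IsPerp P' S (fun ω => sm β (S ω)) G') :
    ∫ ω, (G ω + 1 / β) ^ 2 ∂P ≤ ∫ ω, (G' ω + 1 / β) ^ 2 ∂P' := by
  obtain ⟨a, ha⟩ := root P X hX
  have hn : 2 ≤ 3 := by norm_num
  have ha1 : ∀ i, cv a i i = 1 := by
    intro i
    rw [ha i i, ← hX1 i]
    apply integral_congr_ae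
    exact Filter.Eventually.of_forall fun ω => by ring
  have hs : ∀ i j, cv (spx 3) i j = ∫ ω, S ω i * S ω j ∂P' := by
    intro i j
    rw [hS1 i j, spx_cv hn i j]
    norm_num
  have gs : Gr (fun x : Fin 3 → ℝ => sm β x) := by
    have e : (fun x : Fin 3 → ℝ => sm β x) = fun x => 1 / β * Lg β x := rfl
    rw [e]
    exact (Gr.Lg β).const_mul _
  have gG : Gr (fun x : Fin 3 → ℝ => (Lg β x + 1) ^ 2) := ((Gr.Lg β).add (Gr.const 1)).sq
  have gO : ∀ i : Fin 3, Gr (fun x : Fin 3 → ℝ => Lg β x * x i) := fun i => (Gr.Lg β).mul (Gr.coord i)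
  have e : ∀ x : Fin 3 → ℝ, (sm β x + 1 / β) ^ 2 = (1 / β) ^ 2 * (Lg β x + 1) ^ 2 := by
    intro x
    unfold sm Lg Sm
    ring
  have eX : ∫ ω, (sm β (X ω) + 1 / β) ^ 2 ∂P = (1 / β) ^ 2 * EG a (fun x => (Lg β x + 1) ^ 2) := by
    rw [← transfer P X hX a ha gG, ← integral_const_mul]
    exact integral_congr_ae (Filter.Eventually.of_forall fun ω => e (X ω))
  have eS : ∫ ω, (sm β (S ω) + 1 / β) ^ 2 ∂P' =
      (1 / β) ^ 2 * EG (spx 3) (fun x => (Lg β x + 1) ^ 2) := by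
    rw [← transfer P' S hS (spx 3) hs gG, ← integral_const_mul]
    exact integral_congr_ae (Filter.Eventually.of_forall fun ω => e (S ω))
  have hO : ∀ i, ∫ ω, sm β (S ω) * S ω i ∂P' = 0 := by
    intro i
    have h1 : ∫ ω, sm β (S ω) * S ω i ∂P' = 1 / β * ∫ ω, Lg β (S ω) * S ω i ∂P' := by
      rw [← integral_const_mul]
      apply integral_congr_ae
      exact Filter.Eventually.of_forall fun ω => by
        show sm β (S ω) * S ω i = 1 / β * (Lg β (S ω) * S ω i)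
        unfold sm Lg Sm
        ring
    rw [h1, transfer P' S hS (spx 3) hs (gO i), orthS hn β i, mul_zero]
  rw [perp_eq P' S hS (fun ω => sm β (S ω)) G' (memLp_gr P' S hS gs) (1 / β) hG' hO, eS]
  refine (perp_le P X hX (fun ω => sm β (X ω)) G (memLp_gr P X hX gs) (1 / β) hG).trans ?_
  rw [eX]
  exact mul_le_mul_of_nonneg_left (core3 a ha1 β hβ) (sq_nonneg _)
-- END fin3

end SM3
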